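import Pool.Agent.Lib.MP_de94ef_pr.L.Ext
import Pool.Agent.Lib.MP_de94ef_pr.W.Boot

/-!
Tails and the descent of the variance exponent for scales of ratio `7 / 8`.
-/

open MeasureTheory ProbabilityTheory Set Real Function Filter Topology
open scoped ENNReal NNReal

namespace Pool.Agent.Lib.MP_de94ef_pr.Q.L

open V (memLp_TT dom_of_var ph ph_ge ph_up ph_low var_step var_conc)

lemma two_rpow {e : ℝ} (h1 : 7 / 36 ≤ e) : (8 / 7 : ℝ) ≤ 2 ^ e := by
  refine le_trans ?_ (rpow_le_rpow_of_exponent_le (by norm_num) h1)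
  refine le_of_pow_le_pow_left₀ (n := 36) (by norm_num) (by positivity) ?_
  rw [← rpow_natCast ((2 : ℝ) ^ (7 / 36 : ℝ)), ← rpow_mul (by norm_num)]
  norm_num

theorem concStep : ∃ ε K : ℝ, 0 < ε ∧ ∀ (μ : ℝ × ℝ → ℝ) (σ : ℝ → ℝ) (R : ℝ), IsTC μ → Sc σ →
    (∀ r, 1 ≤ r → K ≤ σ r) → (∀ v, 1 ≤ n1 v → Var[fun ω => TT ω 0 v; PE] ≤ ε * σ (n1 v) ^ 2) →
    1 ≤ R → Conc σ R → Conc σ (2 * R) := by
  obtain ⟨B, K0, hB, h0⟩ := ext (X := 3) (by norm_num)
  obtain ⟨B0, hB0, h1⟩ := meanB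
  obtain ⟨ε, hε, h2⟩ := dom_of_var (B + B0)
  refine ⟨ε, K0, hε, fun μ σ R tc sc big hV hR conc x y r r1 r2 r3 => ?_⟩
  have pos : ∀ r, 1 ≤ r → 0 < σ r := fun r hr => lt_of_lt_of_le (by norm_num) (sc.big r hr)
  rcases le_total (n1 (y - x)) R with hc | hc
  · have a1 : 1 ≤ min r R := le_min r2 hR
    obtain ⟨a2, a3⟩ := conc x y (min r R) (le_min r1 hc) a1 (min_le_right _ _)
    have a4 := sc.mono _ _ (by linarith) (min_le_left r R)
    exact ⟨a2.scale (pos _ a1) a4, a3.scale (pos _ a1) a4⟩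
  have a1 : 1 ≤ n1 (y - x) := hR.trans hc
  have a2 := hV (y - x) a1
  have a3 : Var[fun ω => TT ω x y; PE] = Var[fun ω => TT ω 0 (y - x); PE] := by
    have := (measurePreserving_tau x).variance_fun_comp (measurable_TT 0 (y - x)).aemeasurable
    simpa [TT_tau] using this
  rw [← a3] at a2
  obtain ⟨a4, a5⟩ := h0 μ σ R tc sc conc big
  have a6 := h1 μ σ R tc sc conc (y - x) (n1 (y - x)) (tc.le _) (r1.trans r3)
  have a7 := tc.le_hh (y - x)
  have a8 := sc.mono _ _ (by linarith) r1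
  have s0 := pos _ a1
  have b1 := h2 (fun ω => TT ω x y) (μ (iv (y - x)) + B * σ (n1 (y - x))) _ (measurable_TT x y)
    (memLp_TT x y) s0 a2 (by rw [integral_TT]; nlinarith)
    ((a4 x y _ le_rfl a1 (r1.trans r3)).mono (by positivity) fun ω z hz => ⟨_, rfl, by linarith⟩)
  have b2 := h2 (fun ω => -TT ω x y) (-μ (iv (y - x)) + B * σ (n1 (y - x))) _
    (measurable_TT x y).neg (memLp_TT x y).neg s0 (by rwa [variance_fun_neg])
    (by rw [integral_neg, integral_TT]; nlinarith)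
    ((a5 x y _ le_rfl a1 (r1.trans r3)).mono (by positivity) fun ω z hz => ⟨_, rfl, by linarith⟩)
  rw [integral_TT] at b1
  rw [integral_neg, integral_TT] at b2
  exact ⟨b1.scale s0 a8, b2.scale s0 a8⟩

lemma sc_rpow {A e : ℝ} (hA : 10 ^ 30 ≤ A) (h1 : 7 / 36 ≤ e) (h2 : e ≤ 1 / 2) :
    Sc fun r => A * r ^ e := by
  have A0 : 0 < A := lt_of_lt_of_le (by norm_num) hA
  refine ⟨fun r hr => by positivity, fun r r' hr h => by gcongr, fun r k hr hk => ?_,
    fun r hr => ?_, fun r hr => ?_⟩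
  · have a1 : (k ^ 2) ^ e ≤ k := by
      rw [← rpow_natCast, ← rpow_mul (by linarith)]
      exact (rpow_le_rpow_of_exponent_le hk (by push_cast; linarith)).trans (rpow_one k).le
    rw [mul_rpow (by positivity) hr]
    have a2 := mul_le_mul_of_nonneg_right a1 (show 0 ≤ A * r ^ e by positivity)
    linarith
  · have a1 := two_rpow h1
    rw [div_rpow hr (by norm_num), ← mul_div_assoc, div_le_iff₀ (by positivity)]
    have a2 := mul_le_mul_of_nonneg_left a1 (show 0 ≤ A * r ^ e by positivity)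
    linarith
  · have := one_le_rpow hr (show 0 ≤ e by linarith)
    nlinarith

theorem conc_all {μ : ℝ × ℝ → ℝ} (hμ : IsTC μ) {e D : ℝ} (h1 : 7 / 36 ≤ e) (h2 : e ≤ 1 / 2)
    (hV : ∀ v, 1 ≤ n1 v → Var[fun ω => TT ω 0 v; PE] ≤ D * n1 v ^ (2 * e)) :
    ∃ A : ℝ, 1 ≤ A ∧ Sc (fun r => A * r ^ e) ∧ ∀ R, Conc (fun r => A * r ^ e) R := by
  obtain ⟨ε, K, hε, h⟩ := concStep
  obtain ⟨A, A1, A2, A3⟩ : ∃ A : ℝ, 10 ^ 30 ≤ A ∧ K ≤ A ∧ D / ε ≤ A :=
    ⟨max (10 ^ 30) (max K (D / ε)), le_max_left _ _, (le_max_left _ _).trans (le_max_right _ _),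
      (le_max_right _ _).trans (le_max_right _ _)⟩
  have hs : Sc fun r => A * r ^ e := sc_rpow A1 h1 h2
  have A4 : D ≤ ε * A ^ 2 := by
    rw [div_le_iff₀ hε] at A3
    have : A ≤ A ^ 2 := by nlinarith
    nlinarith
  refine ⟨A, by linarith, hs, ?_⟩
  have all : ∀ n : ℕ, Conc (fun r => A * r ^ e) (2 ^ n) := by
    intro n
    induction n with
    | zero =>
      intro x y r r1 r2 r3
      obtain rfl : r = 1 := le_antisymm (by simpa using r3) r2
      have a2 : 4800 * sig 1 ≤ A * (1 : ℝ) ^ e := by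
        rw [one_rpow]; linarith [sig_le_self le_rfl]
      have a3 := sig_pos r2
      exact ⟨(dom_up x y r1 r2).scale (by linarith) a2,
        (dom_down x y r1 r2).scale (by linarith) a2⟩
    | succ n ih =>
      rw [pow_succ']
      refine h μ _ _ hμ hs (fun r hr => ?_) (fun v hv => (hV v hv).trans ?_)
        (one_le_pow₀ (by norm_num)) ih
      · have := one_le_rpow hr (show 0 ≤ e by linarith)
        nlinarith
      · change D * n1 v ^ (2 * e) ≤ ε * (A * n1 v ^ e) ^ 2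
        rw [mul_pow, ← mul_assoc, mul_comm 2 e, rpow_mul (by linarith), rpow_two]
        exact mul_le_mul_of_nonneg_right A4 (sq_nonneg _)
  intro R x y r r1 r2 _
  obtain ⟨n, hn⟩ := pow_unbounded_of_one_lt r (by norm_num : (1 : ℝ) < 2)
  exact all n x y r r1 r2 hn.le

/-- A variance bound gives exponential tails around the time constant at the same scale. -/
theorem tail_pow {μ : ℝ × ℝ → ℝ} (hμ : IsTC μ) {e D : ℝ} (e0 : 7 / 36 ≤ e) (e1 : e ≤ 1 / 2)
    (hV : ∀ v, 1 ≤ n1 v → Var[fun ω => TT ω 0 v; PE] ≤ D * n1 v ^ (2 * e)) :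
    ∃ C : ℝ, 1 ≤ C ∧ ∀ (v : VV) (r s : ℝ),
    n1 v ≤ r → 1 ≤ r → PE {ω | s ≤ |TT ω 0 v - μ (iv v)|} ≤
      ENNReal.ofReal (C * exp (-(s / (C * r ^ e)))) := by
  obtain ⟨A, hA, hs, h⟩ := conc_all hμ e0 e1 hV
  obtain ⟨B, hB, h1⟩ := meanB
  have x1 : 1 ≤ exp (B + 1) := one_le_exp (by linarith)
  refine ⟨A + 6 * exp (B + 1), by linarith, fun v r s r1 r2 => ?_⟩
  rcases le_total s 0 with s0 | s0
  · refine prob_le_one.trans (ENNReal.one_le_ofReal.2 ?_)
    have : 1 ≤ exp (-(s / ((A + 6 * exp (B + 1)) * r ^ e))) :=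
      one_le_exp (neg_nonneg.2 (div_nonpos_of_nonpos_of_nonneg s0 (by positivity)))
    nlinarith
  obtain ⟨a1, a2⟩ := estBase hμ hs (h r) (h1 μ _ r hμ hs (h r)) hB le_rfl
    (by linarith : r ≤ 2 * r)
  have p0 : 0 < A * r ^ e := by positivity
  obtain ⟨E1, -, b1, c1⟩ := dom_event (a1 0 v r (by rwa [sub_zero]) r2 le_rfl) (by positivity)
    (s / (A * r ^ e) - (B + 1))
  obtain ⟨E2, -, b2, c2⟩ := dom_event (a2 0 v r (by rwa [sub_zero]) r2 le_rfl) (by positivity)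
    (s / (A * r ^ e) - (B + 1))
  have e2 : B * (A * r ^ e) + (s / (A * r ^ e) - (B + 1)) * (A * r ^ e / 1) = s - A * r ^ e := by
    field_simp; ring
  simp only [sub_zero, e2] at c1 c2
  refine (measure_mono (t := E1 ∪ E2) fun ω hω => ?_).trans ((measure_union_le _ _).trans
    ((add_le_add b1 b2).trans ?_))
  · by_contra hc
    rw [mem_union, not_or] at hc
    have := abs_le.2 ⟨by linarith [c2 ω hc.2 _ rfl], c1 ω hc.1 _ rfl⟩
    exact absurd (le_trans hω this) (by linarith)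
  · rw [← ENNReal.ofReal_add (by positivity) (by positivity)]
    refine ENNReal.ofReal_le_ofReal ?_
    have d1 : exp (-(s / (A * r ^ e))) ≤ exp (-(s / ((A + 6 * exp (B + 1)) * r ^ e))) := by
      gcongr; linarith
    rw [neg_sub, sub_eq_add_neg, exp_add]
    nlinarith [exp_pos (-(s / ((A + 6 * exp (B + 1)) * r ^ e))),
      mul_le_mul_of_nonneg_left d1 (exp_pos (B + 1)).le]

variable {e e' c : ℝ}

lemma sc_ph {A : ℝ} (hA : 10 ^ 30 ≤ A) (h1 : 7 / 36 ≤ e) (h : e ≤ e') (h2 : e' ≤ 1 / 2)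
    (hc : 0 ≤ c) : Sc fun r => A * ph e e' c r := by
  have A0 : 0 < A := lt_of_lt_of_le (by norm_num) hA
  have p0 : ∀ r, 0 ≤ r → 0 ≤ ph e e' c r := fun r hr => (rpow_nonneg hr _).trans (ph_ge ..)
  refine ⟨fun r hr => mul_nonneg A0.le (p0 r hr), fun r r' hr hr' => ?_, fun r k hr hk => ?_,
    fun r hr => ?_, fun r hr => ?_⟩
  · have e0 : 0 ≤ e := by linarith
    have e1 : 0 ≤ e' := by linarith
    unfold ph
    gcongr
  · have a1 : (k ^ 2) ^ e' ≤ k := by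
      rw [← rpow_natCast, ← rpow_mul (by linarith)]
      exact (rpow_le_rpow_of_exponent_le hk (by push_cast; linarith)).trans (rpow_one k).le
    have a2 := (ph_up h c (one_le_pow₀ (n := 2) hk) hr).trans
      (mul_le_mul_of_nonneg_right a1 (p0 r hr))
    linarith [mul_le_mul_of_nonneg_left a2 A0.le]
  · have a1 := two_rpow h1
    have a2 := (mul_le_mul_of_nonneg_right a1 (p0 (r / 2) (by linarith))).trans
      (ph_low h hc (k := 2) (r := r / 2) (by norm_num) (by linarith))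
    rw [mul_div_cancel₀ _ (two_ne_zero)] at a2
    linarith [mul_le_mul_of_nonneg_left a2 A0.le]
  · have := (one_le_rpow hr (show 0 ≤ e by linarith)).trans (ph_ge e e' c r)
    nlinarith

lemma conc_gen : ∃ ε K : ℝ, 0 < ε ∧ ∀ (μ : ℝ × ℝ → ℝ) (σ : ℝ → ℝ), IsTC μ → Sc σ →
    (∀ r, 1 ≤ r → K ≤ σ r) → (∀ v, 1 ≤ n1 v → Var[fun ω => TT ω 0 v; PE] ≤ ε * σ (n1 v) ^ 2) →
    ∀ R, Conc σ R := by
  obtain ⟨ε, K, hε, h⟩ := concStep
  refine ⟨ε, K, hε, fun μ σ hμ hs hK hV => ?_⟩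
  have all : ∀ n : ℕ, Conc σ (2 ^ n) := by
    intro n
    induction n with
    | zero =>
      intro x y r r1 r2 r3
      obtain rfl : r = 1 := le_antisymm (by simpa using r3) r2
      have a2 : 4800 * sig 1 ≤ σ 1 := by linarith [sig_le_self le_rfl, hs.big 1 le_rfl]
      have a3 := sig_pos r2
      exact ⟨(dom_up x y r1 r2).scale (by linarith) a2,
        (dom_down x y r1 r2).scale (by linarith) a2⟩
    | succ n ih =>
      rw [pow_succ']
      exact h μ _ _ hμ hs hK hV (one_le_pow₀ (by norm_num)) ih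
  intro R x y r r1 r2 _
  obtain ⟨n, hn⟩ := pow_unbounded_of_one_lt r (by norm_num : (1 : ℝ) < 2)
  exact all n x y r r1 r2 hn.le

lemma descent {μ : ℝ × ℝ → ℝ} (hμ : IsTC μ) {G : ℝ} (h1 : 7 / 36 ≤ e) (h : e ≤ e')
    (h2 : e' < 1 / 2) (hG : ∀ v, 1 ≤ n1 v → hh v - μ (iv v) ≤ G * n1 v ^ e) :
    ∃ ε A0 : ℝ, 0 < ε ∧ 0 < A0 ∧ ∀ c A : ℝ, 0 ≤ c → A0 ≤ A →
      (∀ v, 1 ≤ n1 v → Var[fun ω => TT ω 0 v; PE] ≤ ε * (A * ph e e' c (n1 v)) ^ 2) →
      ∀ v, 1 ≤ n1 v → Var[fun ω => TT ω 0 v; PE] ≤ ε * (3 / 4 * A * ph e e' c (n1 v)) ^ 2 := by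
  obtain ⟨ε, K0, hε, H⟩ := conc_gen
  obtain ⟨K, K1, K2, K3⟩ : ∃ K : ℕ, 4 ≤ K ∧ 128 / ε ≤ (K : ℝ) ^ (1 - 2 * e') ∧
      2304 / ε ≤ (K : ℝ) ^ (2 * e) :=
    ((eventually_ge_atTop 4).and (((tendsto_natCast_atTop_atTop (R := ℝ)).eventually
      (((tendsto_rpow_atTop (by linarith)).eventually_ge_atTop _).and
        ((tendsto_rpow_atTop (by linarith)).eventually_ge_atTop _))))).exists
  have hK : (4 : ℝ) ≤ K := by exact_mod_cast K1
  have g0 := abs_nonneg G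
  refine ⟨ε, 10 ^ 30 + |K0| + 2 * |G| + 32 * |G| * K / ε, hε, by positivity,
    fun c A hc hA hV v hv => ?_⟩
  have z1 := abs_nonneg K0
  have z2 : 0 ≤ 32 * |G| * K / ε := by positivity
  have A0 : 0 < A := by linarith
  have hs := sc_ph (A := A) (by linarith) h1 h h2.le hc
  have hcc := H μ _ hμ hs (fun r hr => by
    have := (one_le_rpow hr (show 0 ≤ e by linarith)).trans (ph_ge e e' c r)
    nlinarith [le_abs_self K0]) hV
  have n0 : 0 ≤ n1 v := by linarith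
  have p1 := ph_ge e e' c (n1 v)
  have p2 := ph_up h c (k := K) (by linarith) n0
  have p3 := ph_low h hc (k := K) (by linarith) n0
  have p4 : 1 ≤ n1 v ^ e := one_le_rpow hv (by linarith)
  have g1 : hh v - μ (iv v) ≤ |G| * ph e e' c (n1 v) :=
    (hG v hv).trans (mul_le_mul (le_abs_self G) p1 (by linarith) g0)
  have g2 := hμ.le_hh v
  have k1 : 1 ≤ (K : ℝ) ^ e := one_le_rpow (by linarith) (by linarith)
  have k2 : (K : ℝ) ^ e' ≤ K :=
    (rpow_le_rpow_of_exponent_le (by linarith) (by linarith)).trans (rpow_one _).le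
  have k3 : (K : ℝ) ^ (1 - 2 * e') * (K ^ e') ^ 2 = K := by
    rw [← rpow_two, ← rpow_mul (by linarith), ← rpow_add (by linarith)]
    norm_num [show 1 - 2 * e' + e' * 2 = 1 by ring]
  have k4 : (K : ℝ) ^ (2 * e) = (K ^ e) ^ 2 := by
    rw [← rpow_two, ← rpow_mul (by linarith), mul_comm]
  have k5 : 0 ≤ (K : ℝ) ^ e' := rpow_nonneg (by linarith) _
  have key := var_step hμ hcc hv K1
  generalize ph e e' c (n1 v) = P at *
  generalize ph e e' c (K * n1 v) = Q at *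
  generalize hh v - μ (iv v) = g at *
  rw [k4] at K3
  generalize (K : ℝ) ^ e = a at *
  generalize (K : ℝ) ^ e' = b at *
  have P0 : 0 < P := by linarith
  have PQ : P ≤ Q := by nlinarith
  have Q0 : 0 < Q := by linarith
  have d0 : 2 * g ≤ A * Q := by nlinarith
  refine (key (by positivity) (by positivity) d0).trans ?_
  have d1 : 16 * (A * Q) ^ 2 / K ≤ ε / 8 * (A * P) ^ 2 := by
    rw [div_le_iff₀ hε] at K2
    have f1 : Q ^ 2 ≤ (b * P) ^ 2 := pow_le_pow_left₀ Q0.le p2 2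
    have f2 : 128 * b ^ 2 ≤ ε * K := by
      rw [← k3]; nlinarith [mul_le_mul_of_nonneg_right K2 (sq_nonneg b)]
    rw [div_le_iff₀ (by linarith)]
    nlinarith [mul_le_mul_of_nonneg_left f1 (sq_nonneg A),
      mul_le_mul_of_nonneg_right f2 (sq_nonneg (A * P))]
  have d2 : 8 * g * (A * Q) ≤ ε / 4 * (A * P) ^ 2 := by
    have f1 : Q ≤ K * P := p2.trans (mul_le_mul_of_nonneg_right k2 P0.le)
    have f2 : 32 * |G| * K ≤ A * ε := (div_le_iff₀ hε).1 (by linarith)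
    have f3 : g * Q ≤ |G| * P * (K * P) := mul_le_mul g1 f1 Q0.le (by positivity)
    nlinarith [mul_le_mul_of_nonneg_left f3 A0.le,
      mul_le_mul_of_nonneg_right f2 (show 0 ≤ A * P ^ 2 by positivity)]
  have d3 : 288 * (A * P) ^ 4 / (A * Q) ^ 2 ≤ ε / 8 * (A * P) ^ 2 := by
    rw [div_le_iff₀ hε] at K3
    have f1 : (a * P) ^ 2 ≤ Q ^ 2 := pow_le_pow_left₀ (by positivity) p3 2
    rw [div_le_iff₀ (by positivity)]
    nlinarith [mul_le_mul_of_nonneg_left f1 (show 0 ≤ ε * A ^ 4 * P ^ 2 by positivity),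
      mul_le_mul_of_nonneg_right K3 (show 0 ≤ (A * P) ^ 4 by positivity)]
  nlinarith [mul_nonneg hε.le (sq_nonneg (A * P))]

/-- A bound on the non-random error gives the variance bound at the same scale. -/
theorem var_of_mean {μ : ℝ × ℝ → ℝ} (hμ : IsTC μ) {G : ℝ} (h1 : 7 / 36 ≤ e) (h2 : e < 1 / 2)
    (hG : ∀ v, 1 ≤ n1 v → hh v - μ (iv v) ≤ G * n1 v ^ e) :
    ∃ D : ℝ, ∀ v, 1 ≤ n1 v → Var[fun ω => TT ω 0 v; PE] ≤ D * n1 v ^ (2 * e) := by
  obtain ⟨A1, e0, -, e2, hA1, -, hcc⟩ := Q.conc_all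
  obtain ⟨ε, A0, hε, hA0, H⟩ := descent hμ h1 (le_max_left e e0) (max_lt h2 e2) hG
  refine ⟨ε * A0 ^ 2, fun v hv => ?_⟩
  obtain ⟨c, hc⟩ : ∃ c, c = n1 v ^ (e - max e e0) := ⟨_, rfl⟩
  have c0 : 0 < c := by rw [hc]; exact rpow_pos_of_pos (by linarith) _
  have down : ∀ k : ℕ, (∀ w, 1 ≤ n1 w → Var[fun ω => TT ω 0 w; PE] ≤
      ε * ((4 / 3) ^ k * A0 * ph e (max e e0) c (n1 w)) ^ 2) → ∀ w, 1 ≤ n1 w →
      Var[fun ω => TT ω 0 w; PE] ≤ ε * (A0 * ph e (max e e0) c (n1 w)) ^ 2 := by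
    intro k
    induction k with
    | zero => simp
    | succ k ih =>
      refine fun hk => ih fun w hw => (H c _ c0.le ?_ hk w hw).trans (le_of_eq ?_)
      · exact le_mul_of_one_le_left hA0.le (one_le_pow₀ (by norm_num))
      · rw [pow_succ]; ring
  obtain ⟨k, hk⟩ := pow_unbounded_of_one_lt ((1153 / ε + 1) * A1 / (A0 * c))
    (by norm_num : (1 : ℝ) < 4 / 3)
  rw [div_lt_iff₀ (by positivity)] at hk
  refine (down k (fun w hw => ?_) v hv).trans (le_of_eq ?_)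
  · have w0 : 0 < n1 w ^ e0 := rpow_pos_of_pos (by linarith) _
    refine (var_conc (hcc μ hμ _) le_rfl hw le_rfl (by positivity)).trans ?_
    have a1 : c * n1 w ^ e0 ≤ ph e (max e e0) c (n1 w) :=
      le_trans (mul_le_mul_of_nonneg_left (rpow_le_rpow_of_exponent_le hw (le_max_right _ _))
        c0.le) (le_max_right _ _)
    have a2 : (1153 / ε + 1) * (A1 * n1 w ^ e0) ≤
        (4 / 3) ^ k * A0 * ph e (max e e0) c (n1 w) := by
      nlinarith [mul_le_mul_of_nonneg_right hk.le w0.le,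
        mul_le_mul_of_nonneg_left a1 (show 0 ≤ (4 / 3 : ℝ) ^ k * A0 by positivity)]
    have a3 := pow_le_pow_left₀ (by positivity) a2 2
    have a4 : 1153 ≤ ε * (1153 / ε + 1) ^ 2 := by
      have b1 : ε * (1153 / ε) = 1153 := by field_simp
      have b2 : 0 ≤ 1153 / ε := by positivity
      nlinarith [mul_nonneg hε.le (mul_nonneg b2 b2)]
    change 1153 * (A1 * n1 w ^ e0) ^ 2 ≤ _
    nlinarith [mul_le_mul_of_nonneg_left a3 hε.le,
      mul_le_mul_of_nonneg_right a4 (sq_nonneg (A1 * n1 w ^ e0))]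
  · have : ph e (max e e0) c (n1 v) = n1 v ^ e := by
      unfold ph
      rw [hc, ← rpow_add (by linarith), sub_add_cancel, max_self]
    rw [this, mul_pow, ← mul_assoc, mul_comm 2 e, rpow_mul (by linarith), rpow_two]

/-- A variance bound gives a bound on the non-random error at the same scale. -/
theorem mean_of_var {μ : ℝ × ℝ → ℝ} (hμ : IsTC μ) {D : ℝ} (h1 : 7 / 36 ≤ e) (h2 : e ≤ 1 / 2)
    (hV : ∀ v, 1 ≤ n1 v → Var[fun ω => TT ω 0 v; PE] ≤ D * n1 v ^ (2 * e)) :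
    ∃ G : ℝ, 0 ≤ G ∧ ∀ v, hh v - μ (iv v) ≤ G * n1 v ^ e := by
  obtain ⟨A, hA, hs, hcc⟩ := conc_all hμ h1 h2 hV
  obtain ⟨B, hB, h⟩ := meanB
  refine ⟨B * A, by positivity, fun v => ?_⟩
  have := h μ _ (n1 v) hμ hs (hcc _) v (n1 v) (hμ.le _) (by linarith [n1_nonneg v])
  simp only at this
  linarith

end Pool.Agent.Lib.MP_de94ef_pr.Q.L
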