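import Pool.Agent.Lib.MP_de94ef_pr.Upper

/-!
Existence of the time constant of the mean passage times, and transfer without it.
-/

open MeasureTheory ProbabilityTheory Set Real Function Filter Topology

namespace Pool.Agent.Lib.MP_de94ef_pr.Q.L

/-- A subadditive function on the plane. -/
noncomputable def gg (x : ℝ × ℝ) : ℝ := hh (fl x) + 6

lemma gg_nonneg (x : ℝ × ℝ) : 0 ≤ gg x := add_nonneg (hh_nonneg _) (by norm_num)

lemma gg_lip (x y : ℝ × ℝ) : gg x ≤ gg y + r1 (x - y) + 2 := by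
  have a1 := hh_lip (fl x) (fl y)
  have a2 := r1_add_le (iv (fl x - fl y) - (x - y)) (x - y)
  rw [sub_add_cancel, r1_iv] at a2
  unfold gg
  linarith [r1_fl_sub x y]

lemma gg_add (x y : ℝ × ℝ) : gg (x + y) ≤ gg x + gg y := by
  have a1 := n1_fl_sub (x + y) y
  have a2 := hh_lip (fl (x + y)) (fl x + fl y)
  have a3 := hh_add (fl x) (fl y)
  rw [add_sub_cancel_right, ← n1_neg, neg_sub, sub_sub, add_comm (fl y)] at a1
  unfold gg
  linarith

lemma gg_nsmul (k : ℕ) (x y : ℝ × ℝ) : gg ((k : ℝ) • x + y) ≤ k * gg x + gg y := by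
  induction k with
  | zero => simp
  | succ k ih =>
    have := gg_add x ((k : ℝ) • x + y)
    rw [show x + ((k : ℝ) • x + y) = ((k + 1 : ℕ) : ℝ) • x + y by push_cast; module] at this
    push_cast at this ⊢
    linarith

/-- The time constant. -/
noncomputable def mu (x : ℝ × ℝ) : ℝ := sInf ((fun t : ℝ => gg (t • x) / t) '' Ioi 0)

lemma tendsto_mu (x : ℝ × ℝ) : Tendsto (fun t : ℝ => gg (t • x) / t) atTop (𝓝 (mu x)) := by
  have bd : BddBelow ((fun t : ℝ => gg (t • x) / t) '' Ioi 0) :=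
    ⟨0, by rintro _ ⟨t, ht, rfl⟩; exact div_nonneg (gg_nonneg _) (le_of_lt ht)⟩
  refine tendsto_order.2 ⟨fun a ha => ?_, fun a ha => ?_⟩
  · filter_upwards [eventually_gt_atTop 0] with t ht using ha.trans_le (csInf_le bd ⟨t, ht, rfl⟩)
  · obtain ⟨_, ⟨s, hs, rfl⟩, h1⟩ := exists_lt_of_csInf_lt ((nonempty_Ioi (a := (0 : ℝ))).image _) ha
    have s0 : 0 < s := hs
    simp only at h1
    have lim : Tendsto (fun t : ℝ => gg (s • x) / s + (gg 0 + s * r1 x + 2) / t) atTop
        (𝓝 (gg (s • x) / s + 0)) := (tendsto_const_nhds.div_atTop tendsto_id).const_add _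
    filter_upwards [eventually_gt_atTop 0, lim.eventually (gt_mem_nhds (by simpa using h1))]
      with t ht h2
    refine lt_of_le_of_lt ?_ h2
    have a1 := Nat.floor_le (div_pos ht s0).le
    have a2 := Nat.lt_floor_add_one (t / s)
    generalize ⌊t / s⌋₊ = k at *
    have a3 := gg_nsmul k (s • x) ((t - k * s) • x)
    rw [show (k : ℝ) • s • x + (t - k * s) • x = t • x by module] at a3
    have a4 := gg_lip ((t - k * s) • x) 0
    have a5 := mul_le_mul_of_nonneg_right a1 (gg_nonneg (s • x))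
    rw [le_div_iff₀ s0] at a1
    rw [div_lt_iff₀ s0] at a2
    have a6 : 0 ≤ r1 x := by unfold r1; positivity
    rw [sub_zero, r1_smul, abs_of_nonneg (by linarith)] at a4
    have a7 := mul_le_mul_of_nonneg_right (show t - k * s ≤ s by linarith) a6
    rw [div_le_iff₀ ht, add_mul, div_mul_cancel₀ _ ht.ne']
    have a8 : t / s * gg (s • x) = gg (s • x) / s * t := by ring
    linarith

lemma mu_lip (x y : ℝ × ℝ) : mu x ≤ mu y + r1 (x - y) := by
  have lim : Tendsto (fun t : ℝ => gg (t • y) / t + r1 (x - y) + 2 / t) atTop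
      (𝓝 (mu y + r1 (x - y) + 0)) :=
    ((tendsto_mu y).add_const _).add (tendsto_const_nhds.div_atTop tendsto_id)
  rw [add_zero] at lim
  refine le_of_tendsto_of_tendsto (tendsto_mu x) lim ?_
  filter_upwards [eventually_gt_atTop 0] with t ht
  have := gg_lip (t • x) (t • y)
  rw [← smul_sub, r1_smul, abs_of_pos ht] at this
  rw [div_le_iff₀ ht, add_mul, add_mul, div_mul_cancel₀ _ ht.ne', div_mul_cancel₀ _ ht.ne']
  linarith

theorem isTC_mu : IsTC mu := by
  refine isTC_of (fun x c hc => ?_) ?_ fun z => ?_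
  · rcases hc.eq_or_lt with rfl | hc
    · refine tendsto_nhds_unique (tendsto_mu _) ?_
      simpa using (tendsto_const_nhds (x := gg 0)).div_atTop tendsto_id
    · refine tendsto_nhds_unique (tendsto_mu _) ((((tendsto_mu x).comp
        (tendsto_id.atTop_mul_const hc)).const_mul c).congr' ?_)
      filter_upwards [eventually_gt_atTop 0] with t ht
      simp only [comp, id, smul_smul]
      field_simp
  · refine (LipschitzWith.of_le_add_mul 2 fun x y => (mu_lip x y).trans ?_).continuous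
    have a1 : dist x.1 y.1 ≤ dist x y := le_max_left _ _
    have a2 : dist x.2 y.2 ≤ dist x y := le_max_right _ _
    rw [Real.dist_eq] at a1 a2
    simp only [r1, Prod.fst_sub, Prod.snd_sub, NNReal.coe_ofNat]
    linarith
  · have lim := ((tendsto_mu (iv z)).comp (tendsto_natCast_atTop_atTop (R := ℝ))).sub
      ((tendsto_const_nhds (x := (6 : ℝ))).div_atTop (tendsto_natCast_atTop_atTop (R := ℝ)))
    rw [sub_zero] at lim
    refine lim.congr fun n => ?_
    simp only [comp, gg]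
    rw [← iv_nsmul, fl_iv, ← sub_div, add_sub_cancel_right]

theorem transfer0 {Ω : Type} [MeasureSpace Ω] [IsProbabilityMeasure (volume : Measure Ω)]
    {X : Sym2 (ℤ × ℤ) → Ω → ℝ} {T : Ω → ℤ × ℤ → ℝ}
    (h1 : ∀ e, Measurable (X e)) (h2 : iIndepFun X (volume : Measure Ω))
    (h3 : ∀ e, Measure.map (X e) (volume : Measure Ω) = expMeasure 1)
    (h4 : ∀ ω v, T ω v = sInf {s : ℝ | ∃ n : ℕ, ∃ p : ℕ → ℤ × ℤ, p 0 = 0 ∧ p n = v ∧
        (∀ i < n, |(p (i + 1)).1 - (p i).1| + |(p (i + 1)).2 - (p i).2| = 1) ∧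
        s = ∑ i ∈ Finset.range n, X s(p i, p (i + 1)) ω}) :
    ∃ Φ : Ω → EE → ℝ, MeasurePreserving Φ volume (PP EE) ∧
      ∀ᵐ ω ∂(volume : Measure Ω), ∀ v, T ω v = TT (Φ ω) 0 v := by
  refine ⟨fun ω e => X e ω,
    ⟨measurable_pi_iff.2 h1, by rw [h2.map_fun_eq_infinitePi_map h1]; simp only [h3]⟩, ?_⟩
  have : ∀ᵐ ω ∂(volume : Measure Ω), ∀ e, 0 < X e ω := ae_all_iff.2 fun e => by
    have := nu_ae_pos
    rw [← show Measure.map (X e) volume = nu from h3 e] at this
    exact ae_of_ae_map (h1 e).aemeasurable this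
  filter_upwards [this] with ω hω v
  rw [h4, ← sInf_eq_TT fun e => (hω e).le]

end Pool.Agent.Lib.MP_de94ef_pr.Q.L
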