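import Pool.Agent.Lib.MP_de94ef_pr.L.Main

/-!
The non-random error in the setting of the problem.
-/

open MeasureTheory ProbabilityTheory Filter

namespace Pool.Agent.Lib.MP_de94ef_pr.Q.L

/-- The non-random error is not `O(|v| ^ a)` for any `a < 1 / 5`. -/
theorem nonrandom_lower {Ω : Type} [MeasureSpace Ω] [IsProbabilityMeasure (volume : Measure Ω)]
    (X : Sym2 (ℤ × ℤ) → Ω → ℝ) (T : Ω → ℤ × ℤ → ℝ) (μ : ℝ × ℝ → ℝ)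
    (h1 : ∀ e, Measurable (X e)) (h2 : iIndepFun X (volume : Measure Ω))
    (h3 : ∀ e, Measure.map (X e) (volume : Measure Ω) = expMeasure 1)
    (h4 : ∀ ω v, T ω v = sInf {s : ℝ | ∃ n : ℕ, ∃ p : ℕ → ℤ × ℤ, p 0 = 0 ∧ p n = v ∧
        (∀ i < n, |(p (i + 1)).1 - (p i).1| + |(p (i + 1)).2 - (p i).2| = 1) ∧
        s = ∑ i ∈ Finset.range n, X s(p i, p (i + 1)) ω})
    (h5 : ∀ (x : ℝ × ℝ) (c : ℝ), 0 ≤ c → μ (c • x) = c * μ x) (h6 : Continuous μ)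
    (h7 : ∀ z : ℤ × ℤ, ∀ᵐ ω ∂(volume : Measure Ω),
        Tendsto (fun n : ℕ => T ω ((n : ℤ) • z) / (n : ℝ)) atTop
          (nhds (μ ((z.1 : ℝ), (z.2 : ℝ)))))
    (a : ℝ) (ha : a < 1 / 5) (C : ℝ) : ∃ v : ℤ × ℤ, v ≠ 0 ∧
      C * (|(v.1 : ℝ)| + |(v.2 : ℝ)|) ^ a <
        (∫ ω, T ω v ∂(volume : Measure Ω)) - μ ((v.1 : ℝ), (v.2 : ℝ)) := by
  obtain ⟨Φ, hΦ, hT, hμ⟩ := transfer h1 h2 h3 h4 h5 h6 h7
  obtain ⟨v, h0, hv⟩ := mean_lower hμ ha C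
  refine ⟨v, h0, ?_⟩
  rw [integral_congr_ae (hT.mono fun ω hω => hω v)]
  rw [hh, ← hΦ.map_eq,
    integral_map hΦ.aemeasurable (measurable_TT 0 v).aestronglyMeasurable] at hv
  exact hv

end Pool.Agent.Lib.MP_de94ef_pr.Q.L
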