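import Pool.Agent.Lib.MP_de94ef_pr.Geom

/-!
The direction of largest Euclidean radius of the limit shape: near-geodesic points lie in a strip.
-/

open Set Real

namespace Pool.Agent.Lib.MP_de94ef_pr.Q.L

variable {μ : ℝ × ℝ → ℝ}

lemma dir (h : IsTC μ) : ∃ (m : ℝ) (u : ℝ × ℝ), 1 / 11 ≤ m ∧ m ≤ 2 ∧ u.1 ^ 2 + u.2 ^ 2 = 1 ∧
    μ u = m ∧ ∀ x : ℝ × ℝ, m * √(x.1 ^ 2 + x.2 ^ 2) ≤ μ x := by
  have hc : IsCompact {x : ℝ × ℝ | x.1 ^ 2 + x.2 ^ 2 = 1} := by
    refine (isCompact_Icc (a := ((-1, -1) : ℝ × ℝ)) (b := (1, 1))).of_isClosed_subset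
      (isClosed_eq (by fun_prop) continuous_const) fun x hx => ?_
    have hx : x.1 ^ 2 + x.2 ^ 2 = 1 := hx
    refine ⟨⟨?_, ?_⟩, ⟨?_, ?_⟩⟩ <;> simp only <;> nlinarith [sq_nonneg x.1, sq_nonneg x.2]
  obtain ⟨u, hu, hm⟩ := hc.exists_isMinOn ⟨(1, 0), by simp⟩ h.continuous.continuousOn
  have hu : u.1 ^ 2 + u.2 ^ 2 = 1 := hu
  have a1 := abs_nonneg u.1
  have a2 := abs_nonneg u.2
  have a3 : |u.1| ^ 2 + |u.2| ^ 2 = 1 := by rw [sq_abs, sq_abs]; exact hu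
  refine ⟨μ u, u, ?_, ?_, hu, rfl, fun x => ?_⟩
  · have := h.ge u
    have : 1 ≤ r1 u := by unfold r1; nlinarith
    linarith
  · have := h.le u
    have : r1 u ≤ 2 := by unfold r1; nlinarith [sq_nonneg (|u.1| - 1), sq_nonneg (|u.2| - 1)]
    linarith
  · rcases (sqrt_nonneg (x.1 ^ 2 + x.2 ^ 2)).eq_or_lt with h0 | h0
    · rw [← h0, mul_zero]; exact h.nonneg x
    · have hq := sq_sqrt (show 0 ≤ x.1 ^ 2 + x.2 ^ 2 by positivity)
      generalize √(x.1 ^ 2 + x.2 ^ 2) = q at *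
      have b1 : μ u ≤ μ (q⁻¹ • x) := hm (show (q⁻¹ • x).1 ^ 2 + (q⁻¹ • x).2 ^ 2 = 1 by
        simp only [Prod.smul_fst, Prod.smul_snd, smul_eq_mul, mul_pow]
        rw [← mul_add, ← hq]; field_simp)
      rw [h.smul _ _ (by positivity), ← div_eq_inv_mul, le_div_iff₀ h0] at b1
      exact b1

lemma card_strip (D : Finset VV) (f g : VV → ℤ) (hfg : ∀ z w, f z = f w → g z = g w → z = w)
    (B W : ℕ) (c : ℝ) (h : ∀ z ∈ D, |(f z : ℝ)| ≤ B ∧ |(g z : ℝ) - c * f z| ≤ W) :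
    D.card ≤ (2 * B + 1) * (2 * W + 2) := by
  have := Finset.card_le_card_of_injOn (s := D)
    (t := Finset.Icc (-(B : ℤ)) B ×ˢ Finset.Icc (-(W : ℤ)) (W + 1))
    (fun z => (f z, g z - ⌊c * f z⌋)) (fun z hz => ?_) fun z _ w _ e => ?_
  · rw [Finset.card_product, Int.card_Icc, Int.card_Icc] at this
    refine this.trans (le_of_eq ?_)
    congr 1 <;> omega
  · obtain ⟨h1, h2⟩ := h z hz
    rw [abs_le] at h1 h2
    have a1 := Int.floor_le (c * f z)
    have a2 := Int.lt_floor_add_one (c * f z)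
    simp only [Finset.coe_product, Finset.coe_Icc, mem_prod, mem_Icc]
    refine ⟨⟨?_, ?_⟩, ?_, ?_⟩
    · exact_mod_cast h1.1
    · exact_mod_cast h1.2
    · have : (-(W : ℝ)) ≤ (g z : ℝ) - ⌊c * f z⌋ := by linarith [h2.1]
      exact_mod_cast this
    · have : (g z : ℝ) - ⌊c * f z⌋ ≤ (W : ℝ) + 1 := by linarith [h2.2]
      exact_mod_cast this
  · simp only [Prod.mk.injEq] at e
    obtain ⟨e1, e2⟩ := e
    rw [e1] at e2
    exact hfg z w e1 (by omega)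

lemma strip_div {a b p q W : ℝ} (hp : 1 / 4 ≤ p ^ 2) (h : |a * p - b * q| ≤ W) :
    |a - q / p * b| ≤ 2 * W := by
  have p0 : p ≠ 0 := fun e => by rw [e] at hp; norm_num at hp
  have p1 : 1 / 2 ≤ |p| := by
    by_contra hc
    nlinarith [abs_nonneg p, sq_abs p]
  have e : a * p - b * q = (a - q / p * b) * p := by field_simp
  rw [e, abs_mul] at h
  nlinarith [abs_nonneg (a - q / p * b)]

/-- Points outside a small set are far from being on a geodesic of the norm. -/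
theorem geom (h : IsTC μ) {n : ℝ} (n1' : 1 ≤ n) :
    ∃ v : VV, n / 11 - 2 ≤ μ (iv v) ∧ n1 v ≤ 2 * n + 2 ∧ ∀ s : ℝ, 1 ≤ s → s ≤ n →
      ∃ D : Finset VV, (D.card : ℝ) ≤ 10 ^ 5 * (n * √(n * s)) ∧ (∀ z ∈ D, n1 z ≤ 77 * n) ∧
      ∀ z ∉ D, μ (iv v) + 3 * s ≤ μ (iv z) + μ (iv (v - z)) := by
  classical
  obtain ⟨m, u, m1, m2, hu, hm, hq⟩ := dir h
  have e1 : μ (n • u) = n * m := by rw [h.smul _ _ (by linarith), hm]
  have f1 := r1_fl (n • u)
  have f2 := h.le_add (iv (fl (n • u))) (n • u)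
  have f3 := h.le_add (n • u) (iv (fl (n • u)))
  rw [r1_sub_comm] at f3
  have u1 : |u.1| ≤ 1 := abs_le.2 ⟨by nlinarith [sq_nonneg u.2], by nlinarith [sq_nonneg u.2]⟩
  have u2 : |u.2| ≤ 1 := abs_le.2 ⟨by nlinarith [sq_nonneg u.1], by nlinarith [sq_nonneg u.1]⟩
  generalize fl (n • u) = v at *
  refine ⟨v, by nlinarith, ?_, fun s hs hn => ?_⟩
  · simp only [r1, iv, Prod.fst_sub, Prod.snd_sub, Prod.smul_fst, Prod.smul_snd,
      smul_eq_mul] at f1
    have a1 := abs_add_le ((v.1 : ℝ) - n * u.1) (n * u.1)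
    have a2 := abs_add_le ((v.2 : ℝ) - n * u.2) (n * u.2)
    rw [sub_add_cancel, abs_mul, abs_of_nonneg (show 0 ≤ n by linarith)] at a1 a2
    unfold n1
    nlinarith
  obtain ⟨B, B1, B2⟩ : ∃ B : ℕ, 77 * n ≤ B ∧ (B : ℝ) ≤ 78 * n :=
    ⟨⌈77 * n⌉₊, Nat.le_ceil _, by linarith [Nat.ceil_lt_add_one (show 0 ≤ 77 * n by linarith)]⟩
  have small : ∀ z : VV, μ (iv z) + μ (iv (v - z)) < μ (iv v) + 3 * s → n1 z ≤ 77 * n :=
    fun z hz => by
      have := h.ge (iv z)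
      rw [r1_iv] at this
      have := h.nonneg (iv (v - z))
      nlinarith
  have q0 : 1 ≤ √(n * s) := one_le_sqrt.2 (by nlinarith)
  have q1 := sq_sqrt (show 0 ≤ n * s by nlinarith)
  obtain ⟨W, W1, W2⟩ : ∃ W : ℕ, 220 * √(n * s) ≤ W ∧ (W : ℝ) ≤ 221 * √(n * s) :=
    ⟨⌈220 * √(n * s)⌉₊, Nat.le_ceil _,
      by linarith [Nat.ceil_lt_add_one (show 0 ≤ 220 * √(n * s) by positivity)]⟩
  have thin : ∀ z : VV, μ (iv z) + μ (iv (v - z)) < μ (iv v) + 3 * s →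
      |(z.2 : ℝ) * u.1 - z.1 * u.2| ≤ 110 * √(n * s) := fun z hz => by
    have a0 := small z hz
    have a1 := hq (iv z)
    have a2 := hq (n • u - iv z)
    have a3 := h.le_add (n • u - iv z) (iv (v - z))
    rw [iv_sub, sub_sub_sub_cancel_right, r1_sub_comm, ← iv_sub] at a3
    have a4 : n - (z.1 * u.1 + z.2 * u.2) ≤
        √((n • u - iv z).1 ^ 2 + (n • u - iv z).2 ^ 2) := by
      refine le_sqrt_of_sq_le ?_
      simp only [Prod.fst_sub, Prod.snd_sub, Prod.smul_fst, Prod.smul_snd, smul_eq_mul, iv]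
      have : n - (z.1 * u.1 + z.2 * u.2) = (n * u.1 - z.1) * u.1 + (n * u.2 - z.2) * u.2 := by
        linear_combination (-n) * hu
      rw [this]
      generalize n * u.1 - z.1 = a
      generalize n * u.2 - z.2 = b
      have : (a * u.1 + b * u.2) ^ 2 + (a * u.2 - b * u.1) ^ 2 = a ^ 2 + b ^ 2 := by
        linear_combination (a ^ 2 + b ^ 2) * hu
      nlinarith [sq_nonneg (a * u.2 - b * u.1)]
    have a5 := sq_sqrt (show 0 ≤ (iv z).1 ^ 2 + (iv z).2 ^ 2 by positivity)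
    have a6 : √((iv z).1 ^ 2 + (iv z).2 ^ 2) ≤ n1 z := by
      refine sqrt_le_iff.2 ⟨n1_nonneg z, ?_⟩
      simp only [iv, n1]
      nlinarith [sq_abs (z.1 : ℝ), sq_abs (z.2 : ℝ),
        mul_nonneg (abs_nonneg (z.1 : ℝ)) (abs_nonneg (z.2 : ℝ))]
    have a7 := sqrt_nonneg ((iv z).1 ^ 2 + (iv z).2 ^ 2)
    generalize √((iv z).1 ^ 2 + (iv z).2 ^ 2) = q at *
    simp only [iv] at a5
    have a8 : (z.1 * u.1 + z.2 * u.2) ^ 2 + ((z.2 : ℝ) * u.1 - z.1 * u.2) ^ 2 = q ^ 2 := by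
      rw [a5]; linear_combination ((z.1 : ℝ) ^ 2 + (z.2 : ℝ) ^ 2) * hu
    generalize (z.1 : ℝ) * u.1 + z.2 * u.2 = a at *
    generalize (z.2 : ℝ) * u.1 - z.1 * u.2 = b at *
    have b1 : m * (q - a) ≤ 7 * s := by
      nlinarith [mul_le_mul_of_nonneg_left a4 (show 0 ≤ m by linarith)]
    have b0 : |a| ≤ q := abs_le_of_sq_le_sq (by nlinarith [sq_nonneg b]) a7
    rw [abs_le] at b0
    have b2 : q - a ≤ 77 * s := by nlinarith
    have b3 : b ^ 2 ≤ (77 * s) * (154 * n) := by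
      have : b ^ 2 = (q - a) * (q + a) := by linear_combination a8
      rw [this]
      exact mul_le_mul b2 (by linarith) (by linarith) (by linarith)
    refine abs_le_of_sq_le_sq ?_ (by positivity)
    rw [mul_pow, q1]
    nlinarith
  refine ⟨(Finset.Icc (-(B : ℤ)) B ×ˢ Finset.Icc (-(B : ℤ)) B).filter
    fun z => μ (iv z) + μ (iv (v - z)) < μ (iv v) + 3 * s, ?_,
    fun z hz => small z (Finset.mem_filter.1 hz).2, fun z hz => ?_⟩
  · have key : ∀ D : Finset VV, (∀ z ∈ D, μ (iv z) + μ (iv (v - z)) < μ (iv v) + 3 * s) →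
        D.card ≤ (2 * B + 1) * (2 * W + 2) := fun D hD => by
      rcases le_total (u.1 ^ 2) (u.2 ^ 2) with hc | hc
      · refine card_strip D Prod.snd Prod.fst (fun z w a b => Prod.ext b a) B W (u.1 / u.2)
          fun z hz => ⟨?_, ?_⟩
        · have := small z (hD z hz)
          unfold n1 at this
          linarith [abs_nonneg (z.1 : ℝ)]
        · have := thin z (hD z hz)
          rw [abs_sub_comm] at this
          linarith [strip_div (by linarith) this]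
      · refine card_strip D Prod.fst Prod.snd (fun z w a b => Prod.ext a b) B W (u.2 / u.1)
          fun z hz => ⟨?_, ?_⟩
        · have := small z (hD z hz)
          unfold n1 at this
          linarith [abs_nonneg (z.2 : ℝ)]
        · linarith [strip_div (by linarith) (thin z (hD z hz))]
    refine ((Nat.cast_le (α := ℝ)).2 (key _ fun z hz => (Finset.mem_filter.1 hz).2)).trans ?_
    push_cast
    refine ((mul_le_mul (show 2 * (B : ℝ) + 1 ≤ 157 * n by linarith)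
      (show 2 * (W : ℝ) + 2 ≤ 444 * √(n * s) by linarith) (by positivity)
      (by linarith)).trans ?_)
    nlinarith [mul_nonneg (show 0 ≤ n by linarith) (show 0 ≤ √(n * s) by linarith)]
  · by_contra hc
    have hc := not_le.1 hc
    have a0 := small z hc
    unfold n1 at a0
    have a1 : |(z.1 : ℝ)| ≤ B := by linarith [abs_nonneg (z.2 : ℝ)]
    have a2 : |(z.2 : ℝ)| ≤ B := by linarith [abs_nonneg (z.1 : ℝ)]
    rw [abs_le] at a1 a2
    refine hz (Finset.mem_filter.2 ⟨Finset.mem_product.2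
      ⟨Finset.mem_Icc.2 ⟨?_, ?_⟩, Finset.mem_Icc.2 ⟨?_, ?_⟩⟩, hc⟩)
    exacts [by exact_mod_cast a1.1, by exact_mod_cast a1.2, by exact_mod_cast a2.1,
      by exact_mod_cast a2.2]

theorem thin (h : IsTC μ) : ∃ C : ℝ, 1 ≤ C ∧ ∀ n : ℝ, C ≤ n → ∃ v : VV, n1 v ≤ C * n ∧
    n ≤ μ (iv v) ∧ ∀ s : ℝ, 1 ≤ s → s ≤ n → ∃ D : Finset VV, (D.card : ℝ) ≤ C * n * √(n * s) ∧
      ∀ z : VV, μ (iv z) + μ (iv (v - z)) ≤ μ (iv v) + s → z ∈ D := by
  refine ⟨10 ^ 8, by norm_num, fun n hn => ?_⟩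
  obtain ⟨v, a1, a2, a3⟩ := geom h (n := 33 * n) (by linarith)
  refine ⟨v, by linarith, by linarith, fun s s1 s2 => ?_⟩
  obtain ⟨D, b1, -, b2⟩ := a3 s s1 (by linarith)
  refine ⟨D, b1.trans ?_, fun z hz => by_contra fun hc => by linarith [b2 z hc]⟩
  have q0 := sqrt_nonneg (n * s)
  have q1 := sq_sqrt (show 0 ≤ n * s by nlinarith)
  have q2 : √(33 * n * s) ≤ 6 * √(n * s) :=
    sqrt_le_iff.2 ⟨by positivity, by rw [mul_pow, q1]; nlinarith⟩
  nlinarith [mul_le_mul_of_nonneg_left q2 (show 0 ≤ n by linarith),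
    mul_nonneg (show 0 ≤ n by linarith) q0]

end Pool.Agent.Lib.MP_de94ef_pr.Q.L
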