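import Pool.Agent.Lib.MP_de94ef_pr.L.Scale
import Pool.Agent.Lib.MP_de94ef_pr.L.Thin
import Pool.Agent.Lib.MP_de94ef_pr.L.Conc

/-!
Fluctuations cannot be of order `r ^ e` in all directions when `e < 1 / 5`.
-/

open MeasureTheory ProbabilityTheory Set Real Function Filter Topology
open scoped ENNReal NNReal

namespace Pool.Agent.Lib.MP_de94ef_pr.Q.L

open Scale

/-- The nearest-neighbour edges at the vertices of `D`. -/
noncomputable def edg (D : Finset VV) : Finset EE :=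
  (D ×ˢ box 0 1).image fun q => s(q.1, q.1 + q.2)

lemma card_edg (D : Finset VV) : ((edg D).card : ℝ) ≤ 9 * D.card := by
  have h : (edg D).card ≤ 9 * D.card := Finset.card_image_le.trans (by
    rw [Finset.card_product, card_box]; omega)
  exact_mod_cast h

lemma es_sub {D : Finset VV} {u v : VV} (p : GG.Walk u v) (h : ∀ z ∈ p.support, z ∈ D) :
    es p ⊆ edg D := by
  intro e he
  induction e using Sym2.ind with
  | _ a b =>
    rw [mem_es] at he
    refine Finset.mem_image.2 ⟨(a, b - a), Finset.mem_product.2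
      ⟨h a (p.fst_mem_support_of_mem_edges he), mem_box_of_n1 ?_⟩, by simp⟩
    simp [n1_of_adj (p.adj_of_mem_edges he)]

lemma wt_sc_ge {L : ℝ} (hL : 1 ≤ L) (S : Finset EE) (ω : Env) (A : Finset EE) :
    wt ω A ≤ wt (sc S L ω) A := by
  refine Finset.sum_le_sum fun e _ => ?_
  unfold sc
  split_ifs
  · rcases le_total (ω e) 0 with h | h
    · rw [max_eq_right h]; exact le_max_right _ _
    · exact max_le_max (le_mul_of_one_le_left h hL) le_rfl
  · exact le_rfl

lemma wt_sc_eq {L : ℝ} (hL : 0 ≤ L) {S : Finset EE} (ω : Env) {A : Finset EE} (h : A ⊆ S) :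
    wt (sc S L ω) A = L * wt ω A := by
  unfold wt
  rw [Finset.mul_sum]
  refine Finset.sum_congr rfl fun e he => ?_
  rw [sc, if_pos (h he), mul_max_of_nonneg _ _ hL, mul_zero]

/-- After scaling the weights in the tube, every path is slow. -/
lemma slow {μ : ℝ × ℝ → ℝ} (h : IsTC μ) {v : VV} {t d : ℝ} {M : ℕ} {D : Finset VV} {ω : Env}
    (t0 : 0 ≤ t) (d0 : 0 ≤ d) (hd : 2 * t ≤ d * (μ (iv v) - t))
    (hM : 11 * (μ (iv v) + 3 * t + 2) + n1 v ≤ M)
    (hD : ∀ z, μ (iv z) + μ (iv (v - z)) ≤ μ (iv v) + 3 * t → z ∈ D)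
    (hω : ∀ z ∈ box 0 M, μ (iv z) - t ≤ TT ω 0 z ∧ μ (iv (v - z)) - t ≤ TT ω z v) :
    μ (iv v) + t ≤ TT (sc (edg D) (1 + d) ω) 0 v := by
  classical
  have m0 := h.nonneg (iv v)
  refine le_TT fun p hp => ?_
  by_cases hc : ∀ z ∈ p.support, z ∈ D
  · rw [wt_sc_eq (by linarith) ω (es_sub p hc)]
    have a1 := ((hω v (mem_box_of_n1 (by rw [sub_zero]; linarith))).1).trans (TT_le ω p)
    nlinarith
  · push Not at hc
    obtain ⟨z, hz, hz'⟩ := hc
    have a1 : μ (iv v) + 3 * t ≤ μ (iv z) + μ (iv (v - z)) := by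
      by_contra hn
      exact hz' (hD z (not_le.1 hn).le)
    obtain ⟨w, p1, p2, e1, b1, b2⟩ := crossing (φ := fun z => (μ (iv z) + μ (iv (v - z))) / 2)
      (fun a b hab => by
        have c1 := h.le_add (iv b) (iv a)
        have c2 := h.le_add (iv (v - b)) (iv (v - a))
        rw [← iv_sub, r1_iv, n1_of_adj hab] at c1
        rw [← iv_sub, r1_iv, sub_sub_sub_cancel_left, n1_of_adj hab.symm] at c2
        linarith) (c := (μ (iv v) + 3 * t) / 2) (p.takeUntil z hz) (by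
        have := h.smul 0 0 le_rfl
        simp only [smul_zero, zero_mul] at this
        simp only [iv_zero, sub_zero, this]
        linarith) (by linarith)
    have e2 : p = p1.append (p2.append (p.dropUntil z hz)) := by
      rw [SimpleGraph.Walk.append_assoc, ← e1, SimpleGraph.Walk.take_spec]
    have a2 := h.ge (iv w)
    have a3 := h.nonneg (iv (v - w))
    rw [r1_iv] at a2
    obtain ⟨c1, c2⟩ := hω w (mem_box_of_n1 (by rw [sub_zero]; linarith [n1_nonneg v]))
    refine le_trans ?_ (wt_sc_ge (by linarith) _ ω _)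
    rw [e2] at hp
    rw [e2, es_append, wt_union _ (disjoint_of_isTrail hp.isTrail)]
    linarith [TT_le ω p1, TT_le ω (p2.append (p.dropUntil z hz))]

lemma good {μ : ℝ × ℝ → ℝ} {t p : ℝ} (v : VV) (Z : Finset VV) (p0 : 0 ≤ p)
    (h1 : ∀ z ∈ Z, PE {ω | t ≤ |TT ω 0 z - μ (iv z)|} ≤ ENNReal.ofReal p)
    (h2 : ∀ z ∈ Z, PE {ω | t ≤ |TT ω 0 (v - z) - μ (iv (v - z))|} ≤ ENNReal.ofReal p)
    (hp : Z.card * (p + p) ≤ 1 / 2) :
    ENNReal.ofReal (1 / 2) ≤
      PE {ω | ∀ z ∈ Z, μ (iv z) - t ≤ TT ω 0 z ∧ μ (iv (v - z)) - t ≤ TT ω z v} := by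
  set G := {ω : Env | ∀ z ∈ Z, μ (iv z) - t ≤ TT ω 0 z ∧ μ (iv (v - z)) - t ≤ TT ω z v}
  have a1 : PE Gᶜ ≤ ENNReal.ofReal (1 / 2) := by
    calc PE Gᶜ ≤ PE (⋃ z ∈ Z, {ω | t ≤ |TT ω 0 z - μ (iv z)|} ∪
          tau z ⁻¹' {ω | t ≤ |TT ω 0 (v - z) - μ (iv (v - z))|}) := by
          refine measure_mono fun ω hω => ?_
          by_contra hn
          refine hω fun z hz => ?_
          simp only [mem_iUnion, not_exists, mem_union, not_or, mem_preimage, mem_ofPred_eq,
            TT_tau, zero_add, sub_add_cancel, not_le, abs_lt] at hn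
          obtain ⟨b1, b2⟩ := hn z hz
          exact ⟨by linarith [b1.1], by linarith [b2.1]⟩
      _ ≤ ∑ z ∈ Z, ENNReal.ofReal (p + p) := by
          refine (measure_biUnion_finset_le _ _).trans (Finset.sum_le_sum fun z hz => ?_)
          rw [ENNReal.ofReal_add p0 p0]
          refine (measure_union_le _ _).trans (add_le_add (h1 z hz) ?_)
          rw [(measurePreserving_tau z).measure_preimage
            (measurableSet_le measurable_const (by fun_prop)).nullMeasurableSet]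
          exact h2 z hz
      _ ≤ _ := by
          rw [Finset.sum_const, nsmul_eq_mul, ← ENNReal.ofReal_natCast,
            ← ENNReal.ofReal_mul (by positivity)]
          exact ENNReal.ofReal_le_ofReal hp
  have a2 : ENNReal.ofReal (1 / 2) + ENNReal.ofReal (1 / 2) ≤ PE G + ENNReal.ofReal (1 / 2) := by
    rw [← ENNReal.ofReal_add (by norm_num) (by norm_num), add_halves, ENNReal.ofReal_one,
      ← measure_univ (μ := PE), ← union_compl_self G]
    exact (measure_union_le _ _).trans (add_le_add le_rfl a1)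
  exact (ENNReal.add_le_add_iff_right ENNReal.ofReal_ne_top).1 a2

/-- Exponential tails around the time constant cannot hold at a scale `r ^ e` with `e < 1 / 5`. -/
theorem no_tail {μ : ℝ × ℝ → ℝ} (h : IsTC μ) {e C : ℝ} (e0 : 0 ≤ e) (e1 : e < 1 / 5) (hC : 1 ≤ C)
    (hT : ∀ (v : VV) (r s : ℝ), n1 v ≤ r → 1 ≤ r → PE {ω | s ≤ |TT ω 0 v - μ (iv v)|} ≤
      ENNReal.ofReal (C * exp (-(s / (C * r ^ e))))) : False := by
  obtain ⟨K, hK, H⟩ := thin h
  obtain ⟨γ, hγ⟩ : ∃ γ, γ = (1 / 5 - e) / 2 := ⟨_, rfl⟩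
  have γ0 : 0 < γ := by linarith
  have k0 : 0 < (161 * K) ^ e := by positivity
  obtain ⟨n, n1', n2, n3⟩ : ∃ n : ℝ, K ≤ n ∧ 3 * (288 * K) ^ 2 ≤ n ^ (5 * γ) ∧
      (n ^ γ) ^ (2 / γ) * exp (-(C * (161 * K) ^ e)⁻¹ * n ^ γ) < (4 * C * (161 * K) ^ 2)⁻¹ :=
    ((eventually_ge_atTop K).and (((tendsto_rpow_atTop (by linarith)).eventually_ge_atTop _).and
      (((tendsto_rpow_mul_exp_neg_mul_atTop_nhds_zero (2 / γ) _ (by positivity)).comp
        (tendsto_rpow_atTop γ0)).eventually (gt_mem_nhds (by positivity))))).exists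
  have hn : 1 ≤ n := hK.trans n1'
  have n0 : 0 < n := by linarith
  obtain ⟨t, ht⟩ : ∃ t, t = n ^ (e + γ) := ⟨_, rfl⟩
  have t1 : 1 ≤ t := by rw [ht]; exact one_le_rpow hn (by linarith)
  have t2 : 3 * (288 * K) ^ 2 * t ^ 5 ≤ n := by
    have : n ^ (5 * γ) * t ^ 5 = n := by
      rw [ht, ← rpow_natCast, ← rpow_mul n0.le, ← rpow_add n0]
      norm_num [show 5 * γ + (e + γ) * 5 = 1 by rw [hγ]; ring]
    rw [← this]
    gcongr
  have t3 : 8 * t ≤ n := by
    have b1 : t ≤ t ^ 5 := le_self_pow₀ t1 (by norm_num)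
    have b2 : 8 ≤ 3 * (288 * K) ^ 2 := by nlinarith
    nlinarith [mul_le_mul b2 b1 (by linarith) (by positivity)]
  obtain ⟨v, v1, v2, hv⟩ := H n n1'
  obtain ⟨D, D1, D2⟩ := hv (3 * t) (by linarith) (by linarith)
  have v3 := h.le (iv v)
  rw [r1_iv] at v3
  have kn : n ≤ K * n := le_mul_of_one_le_left n0.le hK
  obtain ⟨M, M1, M2⟩ : ∃ M : ℕ, 11 * (μ (iv v) + 3 * t + 2) + n1 v ≤ M ∧ (M : ℝ) ≤ 40 * (K * n) :=
    ⟨_, Nat.le_ceil _, by
      have := Nat.ceil_lt_add_one (a := 11 * (μ (iv v) + 3 * t + 2) + n1 v) (by linarith)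
      linarith⟩
  obtain ⟨p, hp⟩ : ∃ p, p = C * exp (-(t / (C * (161 * K * n) ^ e))) := ⟨_, rfl⟩
  have p0 : 0 ≤ p := by rw [hp]; positivity
  have p1 : (161 * K * n) ^ 2 * p ≤ 1 / 4 := by
    rw [← rpow_mul n0.le, mul_div_cancel₀ _ γ0.ne', rpow_two, inv_eq_one_div (4 * C * _),
      lt_div_iff₀ (by positivity)] at n3
    have : -(t / (C * (161 * K * n) ^ e)) = -(C * (161 * K) ^ e)⁻¹ * n ^ γ := by
      rw [ht, rpow_add n0, mul_rpow (by positivity) n0.le]
      field_simp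
    rw [hp, this]
    nlinarith
  have hz : ∀ z ∈ box 0 M, n1 z ≤ 160 * (K * n) := fun z hz => by
    have := n1_le_of_mem_box (show (0 : VV) ∈ box 0 M by simp [mem_box]) hz
    rw [sub_zero] at this
    linarith
  have g := good (μ := μ) (t := t) v (box 0 M) p0
    (fun z hz' => hp ▸ hT z _ t (by linarith [hz z hz']) (by linarith))
    (fun z hz' => hp ▸ hT (v - z) _ t (by
      have := n1_add_le v (-z)
      rw [n1_neg, ← sub_eq_add_neg] at this
      linarith [hz z hz']) (by linarith))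
    (by
      rw [card_box]
      push_cast
      have : (2 * (M : ℝ) + 1) ^ 2 ≤ (161 * K * n) ^ 2 :=
        pow_le_pow_left₀ (by positivity) (by linarith) 2
      nlinarith)
  obtain ⟨d, hd⟩ : ∃ d, d = 4 * t / n := ⟨_, rfl⟩
  have d0 : 0 ≤ d := by rw [hd]; positivity
  have d1 : d * n = 4 * t := by rw [hd]; field_simp
  have d2 : d ≤ 1 / 2 := by rw [hd, div_le_iff₀ n0]; linarith
  have ev := event d0 (by linarith) (edg D) (A := {ω | t ≤ |TT ω 0 v - μ (iv v)|})
    (G := {ω | ∀ z ∈ box 0 M, μ (iv z) - t ≤ TT ω 0 z ∧ μ (iv (v - z)) - t ≤ TT ω z v})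
    (measurableSet_le measurable_const (by fun_prop)) fun ω hω =>
      le_trans (le_sub_iff_add_le'.2 (slow h (by linarith) d0 (by nlinarith) M1 D2 hω))
        (le_abs_self _)
  have d3 : d ^ 2 ≤ 1 / 4 := by nlinarith
  have d4 : 2 * d ^ 2 * (edg D).card ≤ 1 := by
    have b1 : t ^ 2 * √(n * (3 * t)) * (288 * K) ≤ n := by
      refine le_of_pow_le_pow_left₀ (n := 2) (by norm_num) n0.le ?_
      rw [mul_pow, mul_pow, sq_sqrt (by positivity)]
      nlinarith [mul_le_mul_of_nonneg_left t2 n0.le]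
    have b2 := (card_edg D).trans (mul_le_mul_of_nonneg_left D1 (by norm_num))
    have b3 := mul_le_mul_of_nonneg_left b2 (show 0 ≤ 2 * d ^ 2 by positivity)
    have b4 : 2 * d ^ 2 * (9 * (K * n * √(n * (3 * t)))) =
        t ^ 2 * √(n * (3 * t)) * (288 * K) / n := by rw [hd]; field_simp; ring
    rw [b4] at b3
    exact b3.trans ((div_le_one n0).2 b1)
  have d5 : (1 / (1 - d ^ 2)) ^ (edg D).card ≤ 3 := by
    have b1 : 1 / (1 - d ^ 2) ≤ exp (2 * d ^ 2) := by
      refine le_trans ?_ (add_one_le_exp _)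
      rw [div_le_iff₀ (by linarith)]
      nlinarith [sq_nonneg d]
    refine (pow_le_pow_left₀ (div_nonneg zero_le_one (by linarith)) b1 _).trans ?_
    rw [← exp_nat_mul]
    exact (exp_le_exp.2 (by linarith)).trans (exp_one_lt_d9.le.trans (by norm_num))
  have fin := (pow_le_pow_left' g 2).trans (ev.trans (mul_le_mul_right
    (hp ▸ hT v (161 * K * n) t (by linarith) (by linarith) : _ ≤ ENNReal.ofReal p) _))
  have q0 : 0 ≤ 1 / (1 - d ^ 2) := div_nonneg zero_le_one (by linarith)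
  rw [← ENNReal.ofReal_pow (by norm_num), ← ENNReal.ofReal_pow q0,
    ← ENNReal.ofReal_mul (by positivity), ENNReal.ofReal_le_ofReal_iff (by positivity)] at fin
  have q1 : 161 ^ 2 ≤ (161 * K * n) ^ 2 := pow_le_pow_left₀ (by norm_num) (by linarith) 2
  nlinarith [mul_le_mul_of_nonneg_right d5 p0, mul_le_mul_of_nonneg_right q1 p0]

lemma up_rpow {a e C : ℝ} (h : a ≤ e) {v : VV} (hv : 1 ≤ n1 v) : C * n1 v ^ a ≤ |C| * n1 v ^ e :=
  mul_le_mul (le_abs_self C) (rpow_le_rpow_of_exponent_le hv h) (rpow_nonneg (n1_nonneg v) _)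
    (abs_nonneg C)

/-- The variance is not `O(|v| ^ (2 * a))` when `a < 1 / 5`. -/
theorem var_lower {μ : ℝ × ℝ → ℝ} (h : IsTC μ) {a : ℝ} (ha : a < 1 / 5) (C : ℝ) :
    ∃ v : VV, v ≠ 0 ∧ C * n1 v ^ (2 * a) < Var[fun ω => TT ω 0 v; PE] := by
  by_contra hc
  push Not at hc
  have e1 : max a (7 / 36) < 1 / 5 := max_lt ha (by norm_num)
  have e2 := le_max_right a (7 / 36)
  obtain ⟨K, hK, hT⟩ := tail_pow h (D := |C|) e2 (by linarith) fun v hv =>
    (hc v (V.ne_zero_of_n1 hv)).trans (up_rpow (by linarith [le_max_left a (7 / 36)]) hv)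
  exact no_tail h (by linarith) e1 hK hT

/-- The non-random error is not `O(|v| ^ a)` when `a < 1 / 5`. -/
theorem mean_lower {μ : ℝ × ℝ → ℝ} (h : IsTC μ) {a : ℝ} (ha : a < 1 / 5) (C : ℝ) :
    ∃ v : VV, v ≠ 0 ∧ C * n1 v ^ a < hh v - μ (iv v) := by
  by_contra hc
  push Not at hc
  have e1 : max a (7 / 36) < 1 / 5 := max_lt ha (by norm_num)
  obtain ⟨D, hD⟩ := var_of_mean h (G := |C|) (le_max_right a (7 / 36)) (by linarith) fun v hv =>
    (hc v (V.ne_zero_of_n1 hv)).trans (up_rpow (le_max_left _ _) hv)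
  obtain ⟨v, h0, hv⟩ := var_lower h e1 D
  exact absurd (hD v (V.one_le_n1 h0)) (not_le.2 hv)

end Pool.Agent.Lib.MP_de94ef_pr.Q.L
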