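import Pool.Agent.Lib.MP_de94ef_pr.Q.Mean

/-!
Chaining and non-random fluctuations for scales that grow more slowly (ratio `7 / 8`).
-/

open MeasureTheory ProbabilityTheory Set Real Function Filter Topology
open scoped ENNReal NNReal

namespace Pool.Agent.Lib.MP_de94ef_pr.Q.L

/-- Admissible scale functions. -/
structure Sc (σ : ℝ → ℝ) : Prop where
  nonneg : ∀ r, 0 ≤ r → 0 ≤ σ r
  mono : ∀ r r', 0 ≤ r → r ≤ r' → σ r ≤ σ r'
  mul : ∀ r k, 0 ≤ r → 1 ≤ k → σ (k ^ 2 * r) ≤ k * σ r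
  half : ∀ r, 0 ≤ r → σ (r / 2) ≤ 7 / 8 * σ r
  big : ∀ r, 1 ≤ r → 10 ^ 30 ≤ σ r

lemma Sc.le {σ : ℝ → ℝ} (h : Sc σ) {r r' k : ℝ} (hr : 0 ≤ r) (hr' : 0 ≤ r') (hk : 1 ≤ k)
    (hle : r ≤ k ^ 2 * r') : σ r ≤ k * σ r' :=
  (h.mono _ _ hr hle).trans (h.mul _ _ hr' hk)

lemma Sc.pow_half {σ : ℝ → ℝ} (h : Sc σ) {r : ℝ} (hr : 0 ≤ r) (j : ℕ) :
    σ (r / 2 ^ j) ≤ (7 / 8) ^ j * σ r := by
  induction j with
  | zero => simp
  | succ j ih =>
    have := h.half (r / 2 ^ j) (by positivity)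
    rw [div_div, ← pow_succ] at this
    rw [pow_succ (7 / 8 : ℝ)]
    linarith

section

variable {μ : ℝ × ℝ → ℝ} {σ : ℝ → ℝ} {κ ϱ B X R r : ℝ} {f : Fd}

lemma chain_leg (h : IsTC μ) (hσ : Sc σ) (hF : Fr μ κ ϱ f) (hB : 0 ≤ B) (hX : 1 ≤ X)
    (hU : EstU μ σ B X R) (hr : 1 ≤ r) (hR : 200 * r ≤ R) {α β : ℝ} (h1 : 0 ≤ β) (h2 : β ≤ α)
    (h3 : α ≤ r) {y : ℝ × ℝ} {P : VV} (hP : r1 (iv P - y) ≤ 4) :
    Dom (fun ω x => x = TT ω P (fl (y + f.pt α β)) - f.L (iv (fl (y + f.pt α β) - P)))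
      (κ * r + 18 + 11 * B * σ r) (11 * σ r / X) := by
  have a1 := hF.up (f.pt α β) (by rw [hF.a_pt, hF.b_pt, abs_of_nonneg h1]; exact h2)
  have a2 := hF.le h (f.pt α β)
  rw [hF.a_pt] at a1
  rw [hF.a_pt, hF.b_pt, abs_of_nonneg h1, abs_of_nonneg (h1.trans h2)] at a2
  generalize f.pt α β = v at *
  have a3 := r1_add_le (iv (fl (y + v)) - (y + v)) (y - iv P)
  rw [r1_sub_comm y, show iv (fl (y + v)) - (y + v) + (y - iv P) = iv (fl (y + v) - P) - v by
    rw [iv_sub]; abel] at a3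
  have a4 := r1_fl (y + v)
  have a5 := h.le_add (iv (fl (y + v) - P)) v
  have a6 := h.ge (iv (fl (y + v) - P))
  have a7 := (abs_le.1 (hF.L_r1 h (iv (fl (y + v) - P) - v))).1
  rw [r1_iv] at a6
  rw [map_sub] at a7
  have a8 := hσ.mul r 11 (by linarith) (by norm_num)
  have a9 := hσ.big (11 ^ 2 * r) (by linarith)
  have a10 := hσ.big r hr
  have a11 := mul_le_mul_of_nonneg_left h3 hF.κpos.le
  refine ((hU P (fl (y + v)) (11 ^ 2 * r) (by linarith) (by linarith) (by linarith)).scale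
    (div_pos (by linarith) (by linarith)) (by gcongr)).mono (div_pos (by linarith) (by linarith))
    fun ω a ha => ⟨_, rfl, ?_⟩
  rw [ha]
  nlinarith [mul_le_mul_of_nonneg_left a8 hB]

lemma chain_aux (h : IsTC μ) (hσ : Sc σ) (hF : Fr μ κ ϱ f) (hB : 0 ≤ B) (hX : 1 ≤ X)
    (hU : EstU μ σ B X R) (J : ℕ) : ∀ (r : ℝ) (z : ℝ × ℝ) (P : VV), 0 ≤ r → r ≤ 2 ^ J →
    200 * r ≤ R → r1 (iv P - (z - r • f.u)) ≤ 4 →
    Dom (fun ω x => ∃ q, Sq f z r q ∧ x = TT ω P q - f.L (iv (q - P)))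
      (2 * κ * r + (88 * B + 1500) * σ r + 2 * 10 ^ 7) (88 * σ r / X + 10 ^ 6) := by
  have hκ := hF.κpos
  have base : ∀ (r : ℝ) (z : ℝ × ℝ) (P : VV), 0 ≤ r → r ≤ 1 → r1 (iv P - (z - r • f.u)) ≤ 4 →
      Dom (fun ω x => ∃ q, Sq f z r q ∧ x = TT ω P q - f.L (iv (q - P)))
        (2 * κ * r + (88 * B + 1500) * σ r + 2 * 10 ^ 7) (88 * σ r / X + 10 ^ 6) := by
    intro r z P hr0 hr hP
    have := hσ.nonneg r hr0
    refine ((chain_base h hF hr z hP).scale (by norm_num)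
      (le_add_of_nonneg_left (by positivity))).mono (by positivity) fun ω a ha => ⟨a, ha, ?_⟩
    have : 0 ≤ 2 * κ * r + (88 * B + 1500) * σ r := by positivity
    linarith
  induction J with
  | zero => exact fun r z P hr0 hr _ => base r z P hr0 (by simpa using hr)
  | succ J ih =>
    intro r z P hr0 hr hR hP
    rcases le_total r 1 with hr1 | hr1
    · exact base r z P hr0 hr1 hP
    have s1 := hσ.big r hr1
    have s2 := hσ.half r hr0
    have s3 := hσ.nonneg (r / 2) (by linarith)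
    have s4 : 0 < σ r := by linarith
    have s5 : 11 * σ r / X + (88 * σ (r / 2) / X + 10 ^ 6) ≤ 88 * σ r / X + 10 ^ 6 := by
      rw [← add_assoc, ← add_div]; gcongr; linarith
    have s6 : 88 * σ r / X ≤ 88 * σ r := div_le_self (by linarith) hX
    have quarter : ∀ α β : ℝ, 0 ≤ α → α ≤ r / 2 → 0 ≤ β → β ≤ r / 2 →
        Dom (fun ω x => ∃ q, Sq f (z + f.pt α β) (r / 2) q ∧ x = TT ω P q - f.L (iv (q - P)))
        (κ * r + 18 + 11 * B * σ r + (2 * κ * (r / 2) + (88 * B + 1500) * σ (r / 2) + 2 * 10 ^ 7))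
        (88 * σ r / X + 10 ^ 6) := by
      intro α β a1 a2 a3 a4
      have h1 := ih (r / 2) (z + f.pt α β) (fl (z - r • f.u + f.pt (α + r / 2) β)) (by linarith)
        (by rw [pow_succ] at hr; linarith) (by linarith) (by
          rw [show z + f.pt α β - (r / 2) • f.u = z - r • f.u + f.pt (α + r / 2) β by
            unfold Fd.pt; module]
          linarith [r1_fl (z - r • f.u + f.pt (α + r / 2) β)])
      refine ((chain_leg h hσ hF hB hX hU hr1 hR a3 (α := α + r / 2) (by linarith) (by linarith)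
        hP).add h1 (by positivity) (by positivity) ?_).scale (by positivity) s5
      rintro ω a ⟨q, hq, rfl⟩
      refine ⟨_, _, rfl, ⟨q, hq, rfl⟩, ?_⟩
      have h3 := TT_triangle ω P (fl (z - r • f.u + f.pt (α + r / 2) β)) q
      simp only [iv_sub, map_sub]
      linarith
    have h3 := dom_union (({0, r / 2} : Finset ℝ) ×ˢ ({0, r / 2} : Finset ℝ)) (N := 2)
      (s := 88 * σ r / X + 10 ^ 6)
      (F := fun p ω x => ∃ q, Sq f (z + f.pt p.1 p.2) (r / 2) q ∧
        x = TT ω P q - f.L (iv (q - P)))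
      (C := fun ω x => ∃ q, Sq f z r q ∧ x = TT ω P q - f.L (iv (q - P))) (by positivity)
      (fun p hp => by
        simp only [Finset.mem_product, Finset.mem_insert, Finset.mem_singleton] at hp
        exact quarter p.1 p.2 (by rcases hp.1 with h | h <;> linarith)
          (by rcases hp.1 with h | h <;> linarith) (by rcases hp.2 with h | h <;> linarith)
          (by rcases hp.2 with h | h <;> linarith))
      (by
        have h1 : ({0, r / 2} : Finset ℝ).card ≤ 2 := Finset.card_le_two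
        have h2 : (({0, r / 2} : Finset ℝ) ×ˢ ({0, r / 2} : Finset ℝ)).card ≤ 4 := by
          rw [Finset.card_product]; exact Nat.mul_le_mul h1 h1
        have h3 : ((({0, r / 2} : Finset ℝ) ×ˢ ({0, r / 2} : Finset ℝ)).card : ℝ) ≤ 4 := by
          exact_mod_cast h2
        linarith [quadratic_le_exp_of_nonneg (show (0 : ℝ) ≤ 2 by norm_num)])
      (by
        rintro ω a ⟨q, ⟨q1, q2, q3, q4⟩, rfl⟩
        have k : ∀ x : ℝ, 0 ≤ x → x ≤ r → ∃ y ∈ ({0, r / 2} : Finset ℝ),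
            0 ≤ x - y ∧ x - y ≤ r / 2 := fun x x1 x2 => by
          rcases le_total x (r / 2) with h | h
          · exact ⟨0, by simp, by linarith, by linarith⟩
          · exact ⟨r / 2, by simp, by linarith, by linarith⟩
        obtain ⟨α, a1, a2⟩ := k _ q1 q2
        obtain ⟨β, b1, b2⟩ := k _ q3 q4
        refine ⟨(α, β), Finset.mem_product.2 ⟨a1, b1⟩, q, ?_, rfl⟩
        simp only [Sq, ← sub_sub, map_sub _ _ (f.pt α β), hF.a_pt, hF.b_pt]
        exact ⟨a2.1, a2.2, b2⟩)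
    refine h3.mono (by positivity) fun ω a ha => ⟨a, ha, ?_⟩
    nlinarith [mul_le_mul_of_nonneg_left s2 hB]

theorem chain (h : IsTC μ) (hσ : Sc σ) (hF : Fr μ κ ϱ f) (hB : 0 ≤ B) (hX : 1 ≤ X)
    (hU : EstU μ σ B X R) (hr : 1 ≤ r) (hR : 200 * r ≤ R) (hs : 10 ^ 8 * X ≤ σ r) (z : ℝ × ℝ)
    {P : VV} (hP : r1 (iv P - (z - r • f.u)) ≤ 4) :
    Dom (fun ω x => ∃ q, Sq f z r q ∧ x = TT ω P q - f.L (iv (q - P)))
      (2 * κ * r + (100 * B + 2000) * σ r) (200 * σ r / X) := by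
  obtain ⟨J, hJ⟩ := pow_unbounded_of_one_lt r (by norm_num : (1 : ℝ) < 2)
  have s1 := hσ.big r hr
  have s2 : 0 < σ r := by linarith
  have s3 := (le_div_iff₀ (by linarith : 0 < X)).2 hs
  refine ((chain_aux h hσ hF hB hX hU J r z P (by linarith) hJ.le hR hP).scale (by positivity)
    (by rw [mul_div_assoc, mul_div_assoc]; linarith)).mono (by positivity)
    fun ω a ha => ⟨a, ha, ?_⟩
  nlinarith [mul_nonneg hB s2.le]

theorem chain_back (h : IsTC μ) (hσ : Sc σ) (hF : Fr μ κ ϱ f) (hB : 0 ≤ B) (hX : 1 ≤ X)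
    (hU : EstU μ σ B X R) (hr : 1 ≤ r) (hR : 200 * r ≤ R) (hs : 10 ^ 8 * X ≤ σ r) (z : ℝ × ℝ)
    {P : VV} (hP : r1 (iv P - (z + (2 * r) • f.u)) ≤ 4) :
    Dom (fun ω x => ∃ q, Sq f z r q ∧ x = TT ω q P - f.L (iv (P - q)))
      (2 * κ * r + (100 * B + 2000) * σ r) (200 * σ r / X) := by
  have s1 := hσ.big r hr
  refine (chain h hσ (hF.neg h) hB hX hU hr hR hs (z + r • f.u) (P := P) (by
    rwa [show z + r • f.u - r • f.neg.u = z + (2 * r) • f.u by
      simp only [Fd.neg]; module])).mono (div_pos (by linarith) (by linarith)) ?_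
  rintro ω a ⟨q, ⟨q1, q2, q3, q4⟩, rfl⟩
  refine ⟨_, ⟨q, ?_, rfl⟩, ?_⟩
  · simp only [Sq, Fd.neg, ← sub_sub, map_sub _ _ (r • f.u), LinearMap.neg_apply, map_smul, hF.au,
      hF.bu, smul_eq_mul]
    exact ⟨by linarith, by linarith, by linarith, by linarith⟩
  · simp only [Fd.neg, iv_sub, map_sub, LinearMap.neg_apply, TT_symm ω q P]
    linarith

end

section

variable {μ : ℝ × ℝ → ℝ} {σ : ℝ → ℝ} {κ ϱ B X R m w S : ℝ} {f : Fd}

theorem blockF (h : IsTC μ) (hσ : Sc σ) (hF : Fr μ κ ϱ f) (hB : 0 ≤ B) (hX : 1 ≤ X)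
    (hU : EstU μ σ B X R) (hw : 1 ≤ w) (hR : 200 * w ≤ R) (hs : 10 ^ 8 * X ≤ σ w) (hS : 0 < S)
    {g : ℝ} {j : ℤ}
    (hmid : ∀ z, Dom (fun ω x => x = f.L (vq f m w j) - TT ω (fl z) (fl (z + vq f m w j))) g S)
    (M : ℕ) (k : ℤ) :
    Dom (Blk f.u f.t f.L m w M k (k + j))
      (g + 2 * (2 * κ * w + (100 * B + 2000) * σ w) + 16) (S + 400 * σ w / X) := by
  have s1 : 0 < σ w := by linarith
  have s2 : 0 < X := by linarith
  set z := cc f.u f.t m w M k - w • f.u with hz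
  have e1 : cc f.u f.t m w (M + 1) (k + j) + (2 * w) • f.u = z + vq f m w j := by
    rw [hz]; unfold cc vq Fd.pt; push_cast; module
  have h1 := chain h hσ hF hB hX hU hw hR hs (cc f.u f.t m w M k) (P := fl z)
    (by linarith [r1_fl z])
  have h2 := chain_back h hσ hF hB hX hU hw hR hs (cc f.u f.t m w (M + 1) (k + j))
    (P := fl (z + vq f m w j)) (by rw [e1]; linarith [r1_fl (z + vq f m w j)])
  have h3 := r1_fl_sub (z + vq f m w j) z
  rw [add_sub_cancel_left] at h3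
  have h5 := (abs_le.1 (hF.L_r1 h (iv (fl (z + vq f m w j) - fl z) - vq f m w j))).2
  have h4 := ((hmid z).add h1 hS (by positivity) (C := fun ω x => ∃ p,
      Sq f (cc f.u f.t m w M k) w p ∧ x = f.L (vq f m w j) - TT ω (fl z) (fl (z + vq f m w j)) +
        (TT ω (fl z) p - f.L (iv (p - fl z)))) (by
      rintro ω x ⟨p, hp, rfl⟩
      exact ⟨_, _, rfl, ⟨p, hp, rfl⟩, le_rfl⟩)).add h2 (by positivity) (by positivity)
    (C := fun ω x => Blk f.u f.t f.L m w M k (k + j) ω (x + 4)) (by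
      rintro ω x ⟨p, q, hp, hq, hx⟩
      refine ⟨_, _, ⟨p, tree_sq hF hw hp, rfl⟩, ⟨q, tree_sq hF hw hq, rfl⟩, ?_⟩
      have t1 := TT_triangle ω (fl z) p (fl (z + vq f m w j))
      have t2 := TT_triangle ω p q (fl (z + vq f m w j))
      simp only [iv_sub, map_sub] at *
      linarith)
  refine (h4.scale (by positivity) (le_of_eq (by ring))).mono (by positivity)
    fun ω x hx => ⟨x - 4, by rwa [sub_add_cancel], by linarith⟩

/-- Gains between anchors in a tangent frame. -/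
lemma midF (h : IsTC μ) (hσ : Sc σ) (hc : Conc σ R) (hF : Fr μ κ 1 f) (hm : 1 ≤ m) (hw : 0 ≤ w)
    (hwm : w ≤ m) (hR : 1024 * m ≤ R) (j : ℤ) (z : ℝ × ℝ) :
    Dom (fun ω x => x = f.L (vq f m w j) - TT ω (fl z) (fl (z + vq f m w j)))
      (-(hh (fl (vq f m w j)) - f.L (vq f m w j)) / 2 + 4 * κ * m + 6) (32 * σ m) := by
  have hκ := hF.κpos
  have f1 := vq_low h hF (m := m) (by linarith) hw j
  have fa : f.a (vq f m w j) = m + 3 * w := hF.a_pt ..
  have f2 := hF.low2 h (vq f m w j) (by linarith)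
  have f0 : 0 ≤ κ * w * |(j : ℝ)| := by positivity
  rw [fa] at f2
  generalize vq f m w j = v at *
  have f3 := h.le_fl v
  have h2 := r1_fl_sub (z + v) z
  have h2' := n1_fl_sub (z + v) z
  rw [add_sub_cancel_left] at h2 h2'
  have h3 := h.le_add (iv (fl (z + v) - fl z)) v
  have h4 := h.ge (iv (fl (z + v) - fl z))
  rw [r1_iv] at h4
  have h5 := hh_lip (fl v) (fl (z + v) - fl z)
  have h6 := mul_le_mul_of_nonneg_left hwm hκ.le
  have h9 := hσ.big m hm
  have h10 : 0 ≤ κ * m := by positivity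
  rcases le_total (μ v + 2) (93 * m) with hs | hs
  · have h7 := hσ.mul m 32 (by linarith) (by norm_num)
    have h8 := hσ.big (32 ^ 2 * m) (by linarith)
    refine ((hc (fl z) (fl (z + v)) (32 ^ 2 * m) (by linarith) (by linarith)
      (by linarith)).2.scale (by linarith) h7).mono (by linarith) fun ω x hx => ⟨_, rfl, ?_⟩
    rw [hx]; linarith
  · refine (dom_gauss (fl z) (fl (z + v)) (n := 11 * (μ v + 2)) (s := 32 * σ m) (by linarith)
      (by linarith) (Or.inr rfl)).mono (by linarith) fun ω x hx => ⟨_, rfl, ?_⟩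
    have h7 : 46000 * (2 * (11 * (μ v + 2)) + 1) / (32 * σ m) ≤ 1 / 8 * (μ v + 2) := by
      rw [div_le_iff₀ (by linarith)]
      nlinarith
    rw [hx]; linarith

end

section

variable {μ : ℝ × ℝ → ℝ} {σ : ℝ → ℝ} {B R R' R'' : ℝ}

lemma estBase (h : IsTC μ) (hσ : Sc σ) (hc : Conc σ R) (hU : UpB μ σ B R') (hB : 0 ≤ B)
    (h1 : R'' ≤ R) (h2 : R'' ≤ R') : EstU μ σ B 1 R'' ∧ EstD μ σ B 1 R'' := by
  refine ⟨fun x y r hn hr hR => ?_, fun x y r hn hr hR => ?_⟩
  · have s1 := hσ.big r hr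
    have h3 := h.le (iv (y - x))
    rw [r1_iv] at h3
    have h4 := hU (y - x) r (h3.trans hn) (hR.trans h2)
    rw [div_one]
    exact (hc x y r hn hr (hR.trans h1)).1.mono (by linarith) fun ω a ha =>
      ⟨_, rfl, by rw [ha]; linarith⟩
  · have s1 := hσ.big r hr
    have h3 := h.le_hh (y - x)
    have h4 := mul_nonneg hB (hσ.nonneg r (by linarith))
    rw [div_one]
    exact (hc x y r hn hr (hR.trans h1)).2.mono (by linarith) fun ω a ha =>
      ⟨_, rfl, by rw [ha]; linarith⟩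

lemma mean_two_blocks {δ Λ m : ℝ} {f : Fd} (h : IsTC μ) (hσ : Sc σ) (hc : Conc σ R)
    (hδ1 : δ ≤ 1)
    (hΛ : ∑' j : ℤ, ENNReal.ofReal (exp (-(δ / 1728) * |(j : ℝ)|)) ≤ ENNReal.ofReal (exp Λ))
    (hB : 0 ≤ B) (hU : EstU μ σ B 1 R'') (hm : 1 ≤ m) (hw : 1 ≤ δ * m)
    (hF : Fr μ (σ m / m) 1 f) (hL : f.L f.u = 1) (hR : 1024 * m ≤ R) (hR' : 200 * m ≤ R'')
    {K : ℕ} (hK : 1 ≤ K) {x : VV} (hx : iv x = ((K : ℝ) * m) • f.u) (hn : μ (iv x) = K * m) :
    ∃ (j j' : ℤ) (p : ℝ), 0 ≤ p ∧ p ≤ 1 ∧ p * j + (1 - p) * j' = 0 ∧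
      p * meanF f m (δ * m) j + (1 - p) * meanF f m (δ * m) j' ≤
        800 * B * σ (δ * m) + (1728 * Λ + 20000) * σ m := by
  refine two_point _ _ fun ⟨β, hβ⟩ => ?_
  have s1 := hσ.big m hm
  have s2 := hσ.big _ hw
  have hwm : δ * m ≤ m := by nlinarith
  have s3 := hσ.mono _ _ (by linarith) hwm
  have hD : ∀ (M : ℕ) (k j : ℤ), Dom (Blk f.u f.t f.L m (δ * m) M k (k + j))
      (-meanF f m (δ * m) j / 2 + 4 * (σ m / m) * m + 6 +
        2 * (2 * (σ m / m) * (δ * m) + (100 * B + 2000) * σ (δ * m)) + 16) (432 * σ m) :=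
    fun M k j => (blockF h hσ hF hB le_rfl hU hw (by linarith) (by linarith) (by linarith)
      (midF h hσ hc hF hm (by linarith) hwm hR j) M k).scale (by positivity) (by linarith)
  refine mean_G_ge h hF hL (by linarith) (by linarith) (by linarith) hD (β / (4 * (432 * σ m)))
    hK hx hn ((G_le hΛ (A := -Λ - 2) fun j => ?_).trans (ENNReal.ofReal_le_ofReal ?_))
  · have f1 : _ ≤ meanF f m (δ * m) j := vq_low h hF (m := m) (by linarith) (by linarith) j
    have f2 := hβ j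
    have k1 : σ m / m * (δ * m) = δ * σ m := by field_simp
    have k2 : σ m / m * m = σ m := by field_simp
    have k4 : δ * σ m ≤ σ m := by nlinarith
    have e1 : β / (4 * (432 * σ m)) * j = (β * j / 4) / (432 * σ m) := by
      field_simp
    rw [e1, ← add_div, div_le_iff₀ (by linarith)]
    rw [k1] at f1
    linarith
  · have : exp (-Λ - 2 + Λ) = (exp 1 * exp 1)⁻¹ := by
      rw [← exp_add, ← exp_neg]; congr 1; ring
    rw [this, ← div_eq_mul_inv, div_le_iff₀ (by positivity)]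
    nlinarith [exp_one_gt_d9]

lemma mean_step {δ Λ m : ℝ} (h : IsTC μ) (hσ : Sc σ) (hc : Conc σ R) (hδ1 : δ ≤ 1)
    (hΛ0 : 0 ≤ Λ)
    (hΛ : ∑' j : ℤ, ENNReal.ofReal (exp (-(δ / 1728) * |(j : ℝ)|)) ≤ ENNReal.ofReal (exp Λ))
    (hB : 10 ^ 10 * (Λ + 1) ≤ B) (IH : UpB μ σ B R') {x : VV} (hm : μ (iv x) = 4096 * m)
    (hw : 1 ≤ δ * m) (s2 : σ (δ * m) ≤ 1 / 10 ^ 9 * σ m)
    (h1 : μ (iv x) ≤ 2 * R) (h2 : μ (iv x) ≤ 2 * R') :
    hh x ≤ μ (iv x) + B * σ (μ (iv x)) := by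
  have hB0 : 0 ≤ B := le_trans (by positivity) hB
  have hm0 : 0 ≤ m := by linarith [h.nonneg (iv x)]
  have hwm : δ * m ≤ m := by nlinarith
  have hm1 : 1 ≤ m := by linarith
  have hx11 : hh x ≤ 11 * μ (iv x) := by
    have := h.ge (iv x)
    rw [r1_iv] at this
    linarith [hh_le x]
  rcases le_total (11 * μ (iv x)) (B * σ (μ (iv x))) with hc' | hc'
  · linarith
  have s1 := hσ.big m hm1
  have s3 := hσ.mono m (μ (iv x)) hm0 (by linarith)
  have c2 := mul_le_mul_of_nonneg_left s3 hB0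
  have c3 := mul_le_mul_of_nonneg_right hB (hσ.nonneg m hm0)
  have c4 : 0 ≤ Λ * σ m := by positivity
  have hκ : σ m / m ≤ 1 / 2 := by
    rw [div_le_iff₀ (by linarith)]
    linarith
  obtain ⟨f, hu, hL, hF⟩ := exists_tangent h (unit_dir h hm (by linarith)) (κ := σ m / m)
    (by positivity) hκ
  rw [← hu] at hL
  have hx : iv x = (4096 * m) • f.u := by rw [hu, smul_inv_smul₀ (by positivity)]
  clear hu
  obtain ⟨j, j', p, p0, p1, hp, hθ⟩ := mean_two_blocks h hσ hc hδ1 hΛ hB0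
    (estBase h hσ hc IH hB0 (min_le_left _ _) (min_le_right _ _)).1 hm1 hw hF hL (by linarith)
    (le_min (by linarith) (by linarith)) (K := 4096) (by norm_num) (by simpa using hx)
    (by simpa using hm)
  have s4 := hσ.half (μ (iv x)) (by linarith)
  have f1 : ∀ j, _ ≤ meanF f m (δ * m) j := fun j => vq_low h hF hm0 (by linarith) j
  have f2 : ∀ j : ℤ, f.L (vq f m (δ * m) j) ≤ μ (vq f m (δ * m) j) / 2 + 12 * m := fun j => by
    have e : f.a (vq f m (δ * m) j) = m + 3 * (δ * m) := hF.a_pt _ _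
    have := hF.low2 h (vq f m (δ * m) j) (by rw [e]; linarith)
    rw [e] at this
    linarith
  have k2 : σ m / m * m = σ m := by field_simp
  have k4 : σ m / m * (δ * m) ≤ σ m / m * m := by gcongr
  have f3 : ∀ j, 0 ≤ meanF f m (δ * m) j + 9 * σ m := fun j => by
    have : 0 ≤ σ m / m * (δ * m) * |(j : ℝ)| := by positivity
    linarith [f1 j]
  have sw := hσ.nonneg (δ * m) (by linarith)
  generalize δ * m = w at *
  obtain ⟨s, hs⟩ : ∃ s, s = 4096 * m / (m + 3 * w) := ⟨_, rfl⟩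
  have hs0 : 0 ≤ s := by rw [hs]; positivity
  have hs1 : s ≤ 4096 := by rw [hs, div_le_iff₀ (by positivity)]; linarith
  have hs2 : s * (m + 3 * w) = 4096 * m := by rw [hs]; field_simp
  have hxv : iv x = (p * s) • vq f m w j + ((1 - p) * s) • vq f m w j' := by
    have : (p * s) • vq f m w j + ((1 - p) * s) • vq f m w j' =
        (s * (m + 3 * w)) • f.u + (s * w * (p * j + (1 - p) * j')) • f.t := by
      unfold vq Fd.pt; module
    rw [this, hp, hs2, hx]; simp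
  obtain ⟨y, θ, θ', a1, a2, a3, a4, a5, a6, a7, a8⟩ := combine h (by positivity)
    (mul_nonneg (by linarith) hs0) hxv
  have hL' : p * s * f.L (vq f m w j) + (1 - p) * s * f.L (vq f m w j') = 4096 * m := by
    have := congrArg f.L hxv
    rw [hx, map_smul, hL, map_add, map_smul, map_smul] at this
    simp only [smul_eq_mul] at this
    linarith
  have g1 := h.le_fl (vq f m w j)
  have g2 := h.le_fl (vq f m w j')
  have g3 := f2 j
  have g4 := f2 j'
  have g5 := f3 j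
  have g6 := f3 j'
  have e1 : hh (fl (vq f m w j)) = meanF f m w j + f.L (vq f m w j) := by unfold meanF; ring
  have e2 : hh (fl (vq f m w j')) = meanF f m w j' + f.L (vq f m w j') := by unfold meanF; ring
  rw [e1] at g1 a8
  rw [e2] at g2 a8
  clear f1 f2 f3 e1 e2 hxv
  generalize meanF f m w j = F at *
  generalize meanF f m w j' = F' at *
  generalize f.L (vq f m w j) = l at *
  generalize f.L (vq f m w j') = l' at *
  generalize μ (vq f m w j) = M at *
  generalize μ (vq f m w j') = M' at *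
  have b1 : 4096 * (800 * B * σ w + (1728 * Λ + 20009) * σ m) + 10000 ≤
      1 / 64 * (B * σ (μ (iv x))) := by
    have c1 := mul_le_mul_of_nonneg_left s2 hB0
    linarith
  have b0 : 0 ≤ 800 * B * σ w + (1728 * Λ + 20000) * σ m := by positivity
  have b2 : p * s * F + (1 - p) * s * F' ≤
      4096 * (800 * B * σ w + (1728 * Λ + 20000) * σ m) := by
    have c1 := mul_le_mul_of_nonneg_left hθ hs0
    have c2 := mul_le_mul_of_nonneg_right hs1 b0
    linarith
  have b3 : μ (iv y) ≤ μ (iv x) / 2 := by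
    have c1 := mul_le_mul_of_nonneg_right a3 g5
    have c2 := mul_le_mul_of_nonneg_right a6 g6
    have c3 := mul_le_mul_of_nonneg_left (show M ≤ 2 * (F + 9 * σ m) + (4 + 24 * m) by linarith)
      a1
    have c4 := mul_le_mul_of_nonneg_left
      (show M' ≤ 2 * (F' + 9 * σ m) + (4 + 24 * m) by linarith) a4
    have c5 := mul_le_mul_of_nonneg_right a2 (show 0 ≤ 4 + 24 * m by linarith)
    have c6 := mul_le_mul_of_nonneg_right a5 (show 0 ≤ 4 + 24 * m by linarith)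
    have c7 := mul_le_mul_of_nonneg_right hs1 (hσ.nonneg m hm0)
    linarith
  have b4 := IH y _ b3 (by linarith)
  have d1 := mul_le_mul_of_nonneg_left s4 hB0
  have d3 := mul_le_mul_of_nonneg_left (show M ≤ F + l + 2 by linarith) a1
  have d4 := mul_le_mul_of_nonneg_left (show M' ≤ F' + l' + 2 by linarith) a4
  linarith

lemma mean_small (h : IsTC μ) (hσ : Sc σ) (hB : 0 ≤ B) {y : VV} (hy : μ (iv y) ≤ 4096 * B) :
    hh y ≤ μ (iv y) + B * σ (μ (iv y)) := by
  have h0 := h.nonneg (iv y)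
  have h1 := h.ge (iv y)
  rw [r1_iv] at h1
  have h2 := hh_le y
  by_cases hy0 : y = 0
  · have := mul_nonneg hB (hσ.nonneg _ h0)
    rw [hy0, hh_zero, ← hy0]
    linarith
  have h3 : 1 ≤ n1 y := by
    have h4 : 1 ≤ |y.1| + |y.2| := by
      by_contra hn
      have a1 := abs_nonneg y.1
      have a2 := abs_nonneg y.2
      exact hy0 (Prod.ext (abs_eq_zero.1 (by omega)) (abs_eq_zero.1 (by omega)))
    unfold n1
    exact_mod_cast h4
  have h4 := hσ.le (r := 1) (r' := μ (iv y)) (k := 4) zero_le_one h0 (by norm_num) (by linarith)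
  have h5 := hσ.big 1 le_rfl
  have h6 := mul_le_mul_of_nonneg_left (show 10 ^ 29 ≤ σ (μ (iv y)) by linarith) hB
  linarith

theorem meanB : ∃ B0 : ℝ, 0 ≤ B0 ∧ ∀ (μ : ℝ × ℝ → ℝ) (σ : ℝ → ℝ) (R : ℝ), IsTC μ → Sc σ →
    Conc σ R → UpB μ σ B0 (2 * R) := by
  obtain ⟨J, hJ⟩ := exists_pow_lt_of_lt_one (x := (1 / 10 ^ 9 : ℝ)) (y := 7 / 8) (by positivity)
    (by norm_num)
  obtain ⟨Λ, hΛ0, hΛ⟩ := sum_exp (ε := (2 ^ J)⁻¹ / 1728) (by positivity)
  have hJ1 : (1 : ℝ) ≤ 2 ^ J := one_le_pow₀ (by norm_num)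
  obtain ⟨B, hB1, hB2⟩ : ∃ B : ℝ, 10 ^ 10 * (Λ + 1) ≤ B ∧ 2 ^ J ≤ B :=
    ⟨_, le_max_left _ _, le_max_right _ _⟩
  have hB0 : 0 ≤ B := by linarith
  refine ⟨B, hB0, fun μ σ R h hσ hc => ?_⟩
  have up : ∀ (y : VV) (r : ℝ), μ (iv y) ≤ r → hh y ≤ μ (iv y) + B * σ (μ (iv y)) →
      hh y ≤ μ (iv y) + B * σ r := fun y r h1 h2 => by
    linarith [mul_le_mul_of_nonneg_left (hσ.mono _ _ (h.nonneg _) h1) hB0]
  have all : ∀ k : ℕ, UpB μ σ B (min (2 ^ k) (2 * R)) := by
    intro k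
    induction k with
    | zero =>
      intro y r h1 h2
      have h3 := h2.trans (min_le_left _ _)
      rw [pow_zero] at h3
      exact up y r h1 (mean_small h hσ hB0 (by linarith))
    | succ k ih =>
      intro y r h1 h2
      refine up y r h1 ?_
      have h3 := h2.trans (min_le_left _ _)
      have h4 := h2.trans (min_le_right _ _)
      have h0 := h.nonneg (iv y)
      rw [pow_succ] at h3
      rcases le_total (μ (iv y)) (4096 * B) with hy | hy
      · exact mean_small h hσ hB0 hy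
      · refine mean_step (m := μ (iv y) / 4096) h hσ hc (inv_le_one_of_one_le₀ hJ1) hΛ0 hΛ hB1 ih
          (by ring) ?_ ?_ (by linarith) ?_
        · rw [inv_mul_eq_div, one_le_div (by positivity)]
          linarith
        · rw [inv_mul_eq_div]
          exact (hσ.pow_half (by positivity) J).trans
            (mul_le_mul_of_nonneg_right hJ.le (hσ.nonneg _ (by positivity)))
        · rw [mul_min_of_nonneg _ _ (by norm_num : (0 : ℝ) ≤ 2)]
          exact le_min (by linarith) (by linarith)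
  intro y r h1 h2
  obtain ⟨k, hk⟩ := pow_unbounded_of_one_lt r (show (1 : ℝ) < 2 by norm_num)
  exact all k y r h1 (le_min hk.le h2)

end

end Pool.Agent.Lib.MP_de94ef_pr.Q.L
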