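import Pool.Agent.Lib.MP_de94ef_pr.Tensor

/-!
Cost of multiplying finitely many independent exponential weights by a common factor.
-/

open MeasureTheory ProbabilityTheory Set Real Function
open scoped ENNReal

namespace Pool.Agent.Lib.MP_de94ef_pr.Scale

lemma cs {α : Type*} [MeasurableSpace α] (P : Measure α) {f g : α → ℝ≥0∞} (hf : Measurable f)
    (hg : Measurable g) :
    (∫⁻ x, f x * g x ∂P) ^ 2 ≤ (∫⁻ x, f x ^ 2 ∂P) * ∫⁻ x, g x ^ 2 ∂P := by
  have h := ENNReal.lintegral_mul_le_Lp_mul_Lq P (p := 2) (q := 2)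
    (Real.HolderConjugate.two_two) hf.aemeasurable hg.aemeasurable
  simp only [Pi.mul_apply] at h
  refine (pow_le_pow_left' h 2).trans (le_of_eq ?_)
  rw [mul_pow, ← ENNReal.rpow_natCast (_ ^ (1 / 2 : ℝ)), ← ENNReal.rpow_natCast (_ ^ (1 / 2 : ℝ)),
    ← ENNReal.rpow_mul, ← ENNReal.rpow_mul]
  norm_num

lemma one {d : ℝ} (d0 : 0 ≤ d) (d1 : d < 1) {f : ℝ → ℝ≥0∞} (hf : Measurable f) :
    (∫⁻ x, f ((1 + d) * x) ∂nu) ^ 2 ≤
      ENNReal.ofReal (1 / (1 - d ^ 2)) * ∫⁻ x, f x ^ 2 ∂nu := by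
  set L := 1 + d with hL
  have L0 : 0 < L := by linarith
  have e1 : ∫⁻ x, f (L * x) ∂nu =
      ∫⁻ y, f y * ENNReal.ofReal (L⁻¹ * exp ((1 - L⁻¹) * max y 0)) ∂nu := by
    rw [lintegral_nu (by fun_prop), lintegral_nu (by fun_prop),
      ← lintegral_indicator measurableSet_Ioi, ← lintegral_indicator measurableSet_Ioi]
    have hm : Measurable ((Ioi (0 : ℝ)).indicator fun y => ENNReal.ofReal (exp (-y)) *
        (f y * ENNReal.ofReal (L⁻¹ * exp ((1 - L⁻¹) * max y 0)))) :=
      Measurable.indicator (by fun_prop) measurableSet_Ioi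
    have h1 := lintegral_map (μ := (volume : Measure ℝ)) hm (measurable_const_mul L)
    rw [Real.map_volume_mul_left L0.ne', lintegral_smul_measure, abs_of_pos (inv_pos.2 L0),
      smul_eq_mul] at h1
    have h2 : ENNReal.ofReal L * ENNReal.ofReal L⁻¹ = 1 := by
      rw [← ENNReal.ofReal_mul L0.le, mul_inv_cancel₀ L0.ne', ENNReal.ofReal_one]
    rw [← one_mul (∫⁻ a, (Ioi (0 : ℝ)).indicator (fun y => ENNReal.ofReal (exp (-y)) *
        (f y * ENNReal.ofReal (L⁻¹ * exp ((1 - L⁻¹) * max y 0)))) a), ← h2, mul_assoc, h1,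
      ← lintegral_const_mul' _ _ ENNReal.ofReal_ne_top]
    refine lintegral_congr fun x => ?_
    by_cases hx : 0 < x
    · have hx' : 0 < L * x := mul_pos L0 hx
      rw [indicator_of_mem (show x ∈ Ioi (0 : ℝ) from hx),
        indicator_of_mem (show L * x ∈ Ioi (0 : ℝ) from hx'), max_eq_left hx'.le,
        mul_comm (f _), ← mul_assoc, ← mul_assoc, ← ENNReal.ofReal_mul L0.le,
        ← ENNReal.ofReal_mul (by positivity)]
      congr 2
      have : (1 - L⁻¹) * (L * x) = L * x + -x := by field_simp; ring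
      rw [this, exp_add, exp_neg (L * x)]
      field_simp
    · have hx' : ¬ 0 < L * x := fun h => hx ((mul_pos_iff_of_pos_left L0).1 h)
      rw [indicator_of_notMem (show x ∉ Ioi (0 : ℝ) from hx),
        indicator_of_notMem (show L * x ∉ Ioi (0 : ℝ) from hx'), mul_zero]
  have t1 : 2 * (1 - L⁻¹) < 1 := by
    have : 1 / 2 < L⁻¹ := by rw [lt_inv_comm₀ (by norm_num) L0]; linarith
    linarith
  have e2 : ∫⁻ y, ENNReal.ofReal (L⁻¹ * exp ((1 - L⁻¹) * max y 0)) ^ 2 ∂nu =
      ENNReal.ofReal (1 / (1 - d ^ 2)) := by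
    have : ∀ y : ℝ, ENNReal.ofReal (L⁻¹ * exp ((1 - L⁻¹) * max y 0)) ^ 2 =
        ENNReal.ofReal (L⁻¹ ^ 2) * ENNReal.ofReal (exp (2 * (1 - L⁻¹) * max y 0)) := fun y => by
      rw [← ENNReal.ofReal_pow (by positivity), ← ENNReal.ofReal_mul (by positivity), mul_pow,
        ← exp_nat_mul]
      congr 3
      push_cast; ring
    simp only [this]
    rw [lintegral_const_mul' _ _ ENNReal.ofReal_ne_top, lintegral_exp_nu t1,
      ← ENNReal.ofReal_mul (by positivity)]
    congr 1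
    have a1 : 1 - d ^ 2 = L * (2 - L) := by rw [hL]; ring
    have a2 : 2 - L ≠ 0 := by rw [hL]; linarith
    have a3 : 1 - 2 * (1 - L⁻¹) = (2 - L) / L := by field_simp; ring
    rw [a1, a3]
    field_simp
  rw [e1, mul_comm (ENNReal.ofReal _), ← e2]
  exact cs nu hf (by fun_prop)

variable {ι : Type} [DecidableEq ι]

/-- The weights indexed by `S` are multiplied by `L`. -/
def sc (S : Finset ι) (L : ℝ) (ω : ι → ℝ) : ι → ℝ := fun i => if i ∈ S then L * ω i else ω i

lemma measurable_sc (S : Finset ι) (L : ℝ) : Measurable (sc S L) := by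
  refine measurable_pi_lambda _ fun i => ?_
  unfold sc
  split_ifs <;> fun_prop

theorem prod {d : ℝ} (d0 : 0 ≤ d) (d1 : d < 1) (S : Finset ι) :
    ∀ {h : (ι → ℝ) → ℝ≥0∞}, Measurable h → (∫⁻ ω, h (sc S (1 + d) ω) ∂PP ι) ^ 2 ≤
      ENNReal.ofReal (1 / (1 - d ^ 2)) ^ S.card * ∫⁻ ω, h ω ^ 2 ∂PP ι := by
  induction S using Finset.induction_on with
  | empty =>
    intro h hh
    have := cs (PP ι) hh (measurable_const (a := (1 : ℝ≥0∞)))
    have e0 : ∀ ω : ι → ℝ, sc ∅ (1 + d) ω = ω := fun ω => by funext i; simp [sc]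
    simpa [e0] using this
  | insert e S he ih =>
    intro h hh
    have hs := measurable_sc (insert e S) (1 + d)
    have hg : Measurable fun ω : ι → ℝ => ∫⁻ y, h (update ω e ((1 + d) * y)) ∂nu :=
      Measurable.lintegral_prod_right' (f := fun p : (ι → ℝ) × ℝ =>
        h (update p.1 e ((1 + d) * p.2))) (by fun_prop)
    have e1 : ∀ (ω : ι → ℝ) (y : ℝ), sc (insert e S) (1 + d) (update ω e y) =
        update (sc S (1 + d) ω) e ((1 + d) * y) := fun ω y => by
      funext i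
      by_cases hi : i = e
      · subst hi; simp [sc]
      · simp [sc, hi]
    rw [lintegral_update e (F := fun ω => h (sc (insert e S) (1 + d) ω)) (hh.comp hs),
      lintegral_update e (F := fun ω => h ω ^ 2) (by fun_prop)]
    simp only [e1]
    refine (ih hg).trans ?_
    rw [Finset.card_insert_of_notMem he, pow_succ _ S.card, mul_assoc,
      ← lintegral_const_mul' _ _ ENNReal.ofReal_ne_top]
    gcongr with ω
    exact one d0 d1 (f := fun y => h (update ω e y)) (by fun_prop)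

/-- Event form: if scaling maps `G` into the measurable set `A`, then
`P(G)^2 ≤ (1 - d^2)^(-|S|) P(A)`. -/
theorem event {d : ℝ} (d0 : 0 ≤ d) (d1 : d < 1) (S : Finset ι) {G A : Set (ι → ℝ)}
    (hA : MeasurableSet A) (hGA : ∀ ω ∈ G, sc S (1 + d) ω ∈ A) :
    PP ι G ^ 2 ≤ ENNReal.ofReal (1 / (1 - d ^ 2)) ^ S.card * PP ι A := by
  have h := prod d0 d1 S (h := A.indicator 1) (measurable_one.indicator hA)
  have e1 : ∀ ω, (A.indicator (1 : (ι → ℝ) → ℝ≥0∞) ω) ^ 2 = A.indicator 1 ω := fun ω => by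
    by_cases hω : ω ∈ A <;> simp [hω]
  simp only [e1] at h
  rw [lintegral_indicator_one hA] at h
  refine le_trans (pow_le_pow_left' ?_ 2) h
  have hB : MeasurableSet (sc S (1 + d) ⁻¹' A) := measurable_sc S _ hA
  refine (measure_mono (t := sc S (1 + d) ⁻¹' A) hGA).trans (le_of_eq ?_)
  rw [← lintegral_indicator_one hB]
  rfl

end Pool.Agent.Lib.MP_de94ef_pr.Scale

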