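import Pool.Agent.Lib.MP_de94ef_pr.Geom
import Pool.Agent.Lib.MP_de94ef_pr.L.Scale

/-!
Tails around the time constant at a scale below the fifth root of the distance are impossible.
-/

open MeasureTheory ProbabilityTheory Set Real Function Filter Topology
open scoped ENNReal

namespace Pool.Agent.Lib.MP_de94ef_pr.Scale

/-- The four unit steps. -/
def dirs : Finset VV := {(1, 0), (-1, 0), (0, 1), (0, -1)}

lemma card_dirs : dirs.card ≤ 4 := by decide

lemma mem_dirs {a b : VV} (h : GG.Adj a b) : b - a ∈ dirs := by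
  have h' : |b.1 - a.1| + |b.2 - a.2| = 1 := h
  simp only [dirs, Finset.mem_insert, Finset.mem_singleton, Prod.ext_iff, Prod.fst_sub,
    Prod.snd_sub]
  rcases abs_cases (b.1 - a.1) with h1 | h1 <;> rcases abs_cases (b.2 - a.2) with h2 | h2 <;> omega

lemma n1_dirs {u : VV} (h : u ∈ dirs) : n1 u = 1 := by
  simp only [dirs, Finset.mem_insert, Finset.mem_singleton] at h
  rcases h with rfl | rfl | rfl | rfl <;> simp [n1]

/-- Edges with an end in `E`. -/
def edg (E : Finset VV) : Finset EE := (E ×ˢ dirs).image fun q => s(q.1, q.1 + q.2)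

/-- Neighbours of `E`. -/
def nbr (E : Finset VV) : Finset VV := (E ×ˢ dirs).image fun q => q.1 + q.2

lemma card_edg (E : Finset VV) : (edg E).card ≤ 4 * E.card :=
  Finset.card_image_le.trans (by rw [Finset.card_product]; nlinarith [card_dirs])

lemma card_nbr (E : Finset VV) : (nbr E).card ≤ 4 * E.card :=
  Finset.card_image_le.trans (by rw [Finset.card_product]; nlinarith [card_dirs])

lemma wt_split {u v z : VV} (p : GG.Walk u v) (hp : p.IsPath) (hz : z ∈ p.support)
    (ω : EE → ℝ) : TT ω u z + TT ω z v ≤ wt ω (es p) := by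
  have h := p.take_spec hz
  have hn : ((p.takeUntil z hz).append (p.dropUntil z hz)).edges.Nodup := by
    rw [h]; exact hp.isTrail.edges_nodup
  rw [SimpleGraph.Walk.edges_append] at hn
  have hd : Disjoint (es (p.takeUntil z hz)) (es (p.dropUntil z hz)) :=
    Finset.disjoint_left.2 fun e h1 h2 =>
      (List.disjoint_of_nodup_append hn) (mem_es.1 h1) (mem_es.1 h2)
  have e1 : wt ω (es p) = wt ω (es (p.takeUntil z hz)) + wt ω (es (p.dropUntil z hz)) := by
    rw [← wt_union ω hd, ← es_append, h]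
  rw [e1]
  exact add_le_add (TT_le ω _) (TT_le ω _)

lemma path {E : Finset VV} {v : VV} (h0 : (0 : VV) ∈ E) {a b d : ℝ} (d0 : 0 ≤ d) (ω : EE → ℝ)
    (h1 : a ≤ TT ω 0 v) (hab : b ≤ (1 + d) * a)
    (h2 : ∀ z ∈ nbr E, z ∉ E → b ≤ TT ω 0 z + TT ω z v) :
    b ≤ TT (sc (edg E) (1 + d) ω) 0 v := by
  refine le_TT fun p hp => ?_
  have hm : ∀ x : ℝ, max ((1 + d) * x) 0 = (1 + d) * max x 0 := fun x => by
    rw [mul_max_of_nonneg _ _ (by linarith : 0 ≤ 1 + d), mul_zero]
  by_cases hc : ∀ w ∈ p.support, w ∈ E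
  · have e1 : wt (sc (edg E) (1 + d) ω) (es p) = (1 + d) * wt ω (es p) := by
      unfold wt
      rw [Finset.mul_sum]
      refine Finset.sum_congr rfl fun e he => ?_
      have : e ∈ edg E := by
        induction e using Sym2.ind with
        | h x y =>
          have he' := mem_es.1 he
          exact Finset.mem_image.2 ⟨(x, y - x), Finset.mem_product.2
            ⟨hc x (p.fst_mem_support_of_mem_edges he'), mem_dirs (p.adj_of_mem_edges he')⟩,
            by simp⟩
      simp only [sc, this, if_true, hm]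
    rw [e1]
    exact hab.trans (mul_le_mul_of_nonneg_left (h1.trans (TT_le ω p)) (by linarith))
  · push Not at hc
    obtain ⟨w, hw, hwE⟩ := hc
    obtain ⟨t, ht, t1, t2⟩ := (p.takeUntil w hw).exists_boundary_dart (E : Set VV) h0 hwE
    have hz : t.snd ∈ p.support :=
      p.support_takeUntil_subset_support hw (SimpleGraph.Walk.dart_snd_mem_support_of_mem_darts _ ht)
    have hn : t.snd ∈ nbr E := Finset.mem_image.2 ⟨(t.fst, t.snd - t.fst),
      Finset.mem_product.2 ⟨t1, mem_dirs t.adj⟩, by simp⟩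
    refine (h2 _ hn t2).trans ((wt_split p hp hz ω).trans ?_)
    refine Finset.sum_le_sum fun e _ => ?_
    unfold sc
    split_ifs
    · rw [hm]; nlinarith [le_max_right (ω e) 0]
    · exact le_rfl

lemma small {c γ : ℝ} (hc : 0 < c) (hγ : 0 < γ) :
    Tendsto (fun s : ℝ => s ^ 8 * exp (-(c * s ^ γ))) atTop (𝓝 0) := by
  have h := (tendsto_rpow_mul_exp_neg_mul_atTop_nhds_zero (8 / γ) c hc).comp
    (tendsto_rpow_atTop hγ)
  refine h.congr' ?_
  filter_upwards [eventually_ge_atTop 0] with s hs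
  simp only [Function.comp]
  rw [← rpow_mul hs, mul_div_cancel₀ _ hγ.ne', neg_mul]
  norm_num

theorem no_tail {μ : ℝ × ℝ → ℝ} (hμ : IsTC μ) {e C K : ℝ} (e0 : 0 ≤ e) (e1 : e < 1 / 5)
    (hC : 1 ≤ C) (hK : 1 ≤ K)
    (thin : ∀ n : ℝ, K ≤ n → ∃ v : VV, n1 v ≤ K * n ∧ n ≤ μ (iv v) ∧ ∀ s : ℝ, 1 ≤ s → s ≤ n →
      ∃ D : Finset VV, (D.card : ℝ) ≤ K * n * √(n * s) ∧
        ∀ z : VV, μ (iv z) + μ (iv (v - z)) ≤ μ (iv v) + s → z ∈ D)
    (hT : ∀ (v : VV) (r s : ℝ), n1 v ≤ r → 1 ≤ r →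
      PP EE {ω | s ≤ |TT ω 0 v - μ (iv v)|} ≤ ENNReal.ofReal (C * exp (-(s / (C * r ^ e))))) :
    False := by
  classical
  set M : ℝ := 11 * (K + 1) + 1 with hM
  have M1 : 1 ≤ M := by linarith
  have Me : 0 < M ^ e := by positivity
  have hs := small (c := 1 / (C * M ^ e)) (γ := 1 - 5 * e) (by positivity) (by linarith)
  have hε : 0 < 1 / (C * (8 * exp (144 * K) + 40 * K)) := by positivity
  obtain ⟨s, s1, s2, s3⟩ := ((hs.eventually (gt_mem_nhds hε)).and
    ((eventually_ge_atTop K).and (eventually_ge_atTop 2))).exists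
  have s0 : 0 < s := by linarith
  have p4 : 16 ≤ s ^ 4 := by
    have := pow_le_pow_left₀ (by norm_num : (0 : ℝ) ≤ 2) s3 4
    linarith
  have p5 : 16 * s ≤ s ^ 5 := by nlinarith
  have p8 : 1 ≤ s ^ 8 := one_le_pow₀ (by linarith)
  obtain ⟨v, v1, v2, hD⟩ := thin (s ^ 5) (by linarith)
  obtain ⟨D, D1, D2⟩ := hD (3 * s) (by linarith) (by linarith)
  set m := μ (iv v) with hm
  have m0 : 0 < m := by linarith
  have mK : m ≤ K * s ^ 5 := (hμ.le _).trans v1
  set E := D.filter fun z => μ (iv z) + μ (iv (v - z)) ≤ m + 3 * s with hE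
  have cE : (E.card : ℝ) ≤ 2 * K * s ^ 8 := by
    have a1 : √(s ^ 5 * (3 * s)) ≤ 2 * s ^ 3 := by
      rw [sqrt_le_iff]
      exact ⟨by positivity, by nlinarith [pow_pos s0 6]⟩
    have a2 : (E.card : ℝ) ≤ D.card := by exact_mod_cast Finset.card_filter_le _ _
    have a3 := mul_le_mul_of_nonneg_left a1 (show 0 ≤ K * s ^ 5 by positivity)
    nlinarith
  have mu0 : μ (iv 0) = 0 := by
    have := hμ.smul 0 0 le_rfl
    simpa using this
  have E0 : (0 : VV) ∈ E := by
    have : μ (iv 0) + μ (iv (v - 0)) ≤ m + 3 * s := by rw [mu0, sub_zero]; linarith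
    exact Finset.mem_filter.2 ⟨D2 _ this, this⟩
  set δ : ℝ := C * exp (-(s / (C * (M * s ^ 5) ^ e))) with hδ
  have δ0 : 0 < δ := by positivity
  have hδ1 : s ^ 8 * δ * (8 * exp (144 * K) + 40 * K) ≤ 1 := by
    have a1 : s / (C * (M * s ^ 5) ^ e) = 1 / (C * M ^ e) * s ^ (1 - 5 * e) := by
      rw [mul_rpow (by linarith) (by positivity), ← rpow_natCast s 5, ← rpow_mul s0.le,
        rpow_sub s0, rpow_one]
      push_cast
      field_simp
    rw [hδ, a1]
    rw [lt_div_iff₀ (by positivity)] at s1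
    linarith
  have r1' : 1 ≤ M * s ^ 5 := by nlinarith
  have hz : ∀ z ∈ nbr E, n1 z ≤ M * s ^ 5 ∧ n1 (v - z) ≤ M * s ^ 5 := fun z hz => by
    obtain ⟨q, hq, rfl⟩ := Finset.mem_image.1 hz
    obtain ⟨q1, q2⟩ := Finset.mem_product.1 hq
    have a1 := (Finset.mem_filter.1 q1).2
    have a2 := hμ.ge (iv q.1)
    have a3 := hμ.ge (iv (v - q.1))
    rw [r1_iv] at a2 a3
    have a4 := n1_add_le q.1 q.2
    have a5 := n1_add_le (v - q.1) (-q.2)
    rw [n1_neg, ← sub_eq_add_neg, sub_sub] at a5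
    have a6 := n1_dirs q2
    have a7 := n1_nonneg q.1
    have a8 := n1_nonneg (v - q.1)
    have a9 : M * s ^ 5 = 11 * (K * s ^ 5) + 12 * s ^ 5 := by rw [hM]; ring
    constructor <;> linarith
  have hv : n1 v ≤ M * s ^ 5 := v1.trans (by gcongr; linarith)
  set B : Set (EE → ℝ) := {ω | s ≤ |TT ω 0 v - m|} ∪ ⋃ z ∈ nbr E,
    ({ω | s ≤ |TT ω 0 z - μ (iv z)|} ∪ {ω | s ≤ |TT ω z v - μ (iv (v - z))|}) with hB
  have hB1 : PP EE B ≤ ENNReal.ofReal (1 / 2) := by
    have a1 : ∀ z ∈ nbr E, PP EE ({ω | s ≤ |TT ω 0 z - μ (iv z)|} ∪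
        {ω | s ≤ |TT ω z v - μ (iv (v - z))|}) ≤ ENNReal.ofReal (2 * δ) := fun z h => by
      have b1 := hT (v - z) _ s (hz z h).2 r1'
      rw [← (measurePreserving_tau z).measure_preimage
        (measurableSet_le measurable_const (by fun_prop)).nullMeasurableSet] at b1
      simp only [preimage_ofPred_eq, TT_tau, zero_add, sub_add_cancel] at b1
      rw [two_mul, ENNReal.ofReal_add δ0.le δ0.le]
      exact (measure_union_le _ _).trans (add_le_add (hT z _ s (hz z h).1 r1') b1)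
    refine (measure_union_le _ _).trans ((add_le_add (hT v _ s hv r1')
      ((measure_biUnion_finset_le _ _).trans (Finset.sum_le_card_nsmul _ _ _ a1))).trans ?_)
    rw [nsmul_eq_mul, ← ENNReal.ofReal_natCast, ← ENNReal.ofReal_mul (by positivity),
      ← ENNReal.ofReal_add δ0.le (by positivity)]
    refine ENNReal.ofReal_le_ofReal ?_
    have b1 : ((nbr E).card : ℝ) ≤ 4 * E.card := by exact_mod_cast card_nbr E
    have b2 : ((nbr E).card : ℝ) * (2 * δ) ≤ 8 * K * s ^ 8 * (2 * δ) := by gcongr; linarith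
    have b3 : δ ≤ K * (s ^ 8 * δ) := by nlinarith [mul_le_mul hK p8 zero_le_one (by linarith)]
    nlinarith [mul_pos (mul_pos (pow_pos s0 8) δ0) (exp_pos (144 * K))]
  have hG : ENNReal.ofReal (1 / 2) ≤ PP EE Bᶜ := by
    have a1 : (1 : ℝ≥0∞) ≤ PP EE B + PP EE Bᶜ := by
      rw [← measure_univ (μ := PP EE), ← union_compl_self B]; exact measure_union_le _ _
    have a2 : ENNReal.ofReal (1 / 2) + ENNReal.ofReal (1 / 2) = 1 := by
      rw [← ENNReal.ofReal_add (by norm_num) (by norm_num)]; norm_num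
    rw [← a2] at a1
    exact (ENNReal.add_le_add_iff_left ENNReal.ofReal_ne_top).1 (a1.trans (by gcongr))
  set d : ℝ := 3 * s / m with hd
  have d0 : 0 ≤ d := by positivity
  have dm : d * m = 3 * s := by rw [hd]; field_simp
  have d4 : d * s ^ 4 ≤ 3 := by
    have : d * s ^ 5 ≤ d * m := by gcongr
    have a2 : d * s ^ 4 * s ≤ 3 * s := by nlinarith
    exact le_of_mul_le_mul_right a2 s0
  have d1 : d ≤ 1 / 2 := by nlinarith
  have key := event d0 (by linarith) (edg E) (G := Bᶜ) (A := {ω | s ≤ |TT ω 0 v - m|})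
    (measurableSet_le measurable_const (by fun_prop)) fun ω hω => by
      simp only [hB, mem_compl_iff, mem_union, mem_iUnion, mem_ofPred_eq, not_or, not_exists,
        not_le] at hω
      have := path (v := v) E0 (a := m - s) (b := m + s) d0 ω
        (by linarith [(abs_lt.1 hω.1).1]) (by nlinarith) fun z h1 h2 => by
          obtain ⟨b1, b2⟩ := hω.2 z h1
          have b3 : ¬ μ (iv z) + μ (iv (v - z)) ≤ m + 3 * s := fun h =>
            h2 (Finset.mem_filter.2 ⟨D2 z h, h⟩)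
          linarith [(abs_lt.1 b1).1, (abs_lt.1 b2).1, not_le.1 b3]
      exact le_trans (le_sub_iff_add_le'.2 this) (le_abs_self _)
  have a0 : d ^ 2 ≤ 1 / 4 := (pow_le_pow_left₀ d0 d1 2).trans (by norm_num)
  have c1 : (1 / (1 - d ^ 2)) ^ (edg E).card ≤ exp (144 * K) := by
    have a1 : 1 / (1 - d ^ 2) ≤ exp (2 * d ^ 2) := by
      refine le_trans ?_ (add_one_le_exp _)
      rw [div_le_iff₀ (by linarith)]
      nlinarith [sq_nonneg d]
    refine (pow_le_pow_left₀ (div_nonneg zero_le_one (by linarith)) a1 _).trans ?_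
    rw [← exp_nat_mul]
    refine exp_le_exp.2 ?_
    have b1 : ((edg E).card : ℝ) ≤ 4 * E.card := by exact_mod_cast card_edg E
    have b2 : ((edg E).card : ℝ) * (2 * d ^ 2) ≤ 8 * K * s ^ 8 * (2 * d ^ 2) := by
      gcongr; linarith
    have b3 : (d * s ^ 4) ^ 2 ≤ 3 ^ 2 := by gcongr
    nlinarith
  have c2 := ((pow_le_pow_left' hG 2).trans key).trans (mul_le_mul' le_rfl (hT v _ s hv r1'))
  rw [← ENNReal.ofReal_pow (by norm_num), ← ENNReal.ofReal_pow
    (div_nonneg zero_le_one (by linarith)), ← ENNReal.ofReal_mul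
    (pow_nonneg (div_nonneg zero_le_one (by linarith)) _),
    ENNReal.ofReal_le_ofReal_iff (mul_nonneg (pow_nonneg (div_nonneg zero_le_one
      (by linarith)) _) δ0.le)] at c2
  have c3 := mul_le_mul_of_nonneg_right c1 δ0.le
  have c4 : exp (144 * K) * δ ≤ s ^ 8 * δ * exp (144 * K) := by
    nlinarith [mul_pos δ0 (exp_pos (144 * K))]
  nlinarith [mul_pos (mul_pos (pow_pos s0 8) δ0) (show 0 < K by linarith)]

end Pool.Agent.Lib.MP_de94ef_pr.Scale

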