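import Pool.Agent.Lib.MP_de94ef_pr.L.Conc
import Pool.Agent.Lib.MP_de94ef_pr.L.Thin
import Pool.Agent.Lib.MP_de94ef_pr.L.NoTail
import Pool.Agent.Lib.MP_de94ef_pr.RF.Conc

/-!
Deviations from the time constant on both sides, at every scale below the fifth root.
-/

open MeasureTheory ProbabilityTheory Set Real Function Filter Topology
open scoped ENNReal NNReal

namespace Pool.Agent.Lib.MP_de94ef_pr.Q.L

open V (memLp_TT dom_of_var var_conc)

lemma sq_le_up {w c N : ℝ} (hc : 0 ≤ c) (hN : 1 ≤ N) :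
    w ^ 2 ≤ 2 * N * c + (if c ≤ w then 2 * N ^ 2 else 0) + 3 * w ^ 4 / N ^ 2 - N * w := by
  have N0 : 0 < N := by linarith
  have a0 : 0 ≤ w ^ 4 / N ^ 2 := by positivity
  have a1 : ∀ x : ℝ, 0 ≤ x → x ^ 4 = w ^ 4 → N ≤ x → x ^ 2 ≤ w ^ 4 / N ^ 2 ∧
      N * x ≤ w ^ 4 / N ^ 2 := fun x hx e h => by
    have b1 : N ^ 2 ≤ x ^ 2 := by gcongr
    have b2 : x ^ 2 ≤ w ^ 4 / N ^ 2 := by
      rw [le_div_iff₀ (by positivity), ← e]
      nlinarith [mul_le_mul_of_nonneg_left b1 (sq_nonneg x)]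
    exact ⟨b2, by nlinarith⟩
  rw [mul_div_assoc]
  rcases le_total 0 w with h0 | h0
  · rcases le_total N w with h1 | h1
    · obtain ⟨b1, b2⟩ := a1 w h0 rfl h1
      split_ifs <;> nlinarith
    · split_ifs with h2
      · nlinarith
      · nlinarith [not_le.1 h2]
  · rcases le_total N (-w) with h1 | h1
    · obtain ⟨b1, b2⟩ := a1 (-w) (by linarith) (by ring) h1
      split_ifs <;> nlinarith
    · split_ifs <;> nlinarith

lemma var_up {M ε : ℝ} (hM : 0 ≤ M) (hε : 0 < ε) : ∃ p c : ℝ, 0 < p ∧ 0 < c ∧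
    ∀ W : Env → ℝ, Measurable W → Integrable W PE → Integrable (fun ω => W ω ^ 4) PE →
      ∫ ω, W ω ^ 4 ∂PE ≤ M → 0 ≤ ∫ ω, W ω ∂PE → PE.real {ω | c ≤ W ω} < p → Var[W; PE] ≤ ε := by
  obtain ⟨N, hN⟩ : ∃ N, N = 9 * M / ε + 1 := ⟨_, rfl⟩
  have N1 : 1 ≤ N := by rw [hN]; linarith [show 0 ≤ 9 * M / ε by positivity]
  have N0 : 0 < N := by linarith
  have N2 : 9 * M ≤ ε * N ^ 2 := by
    have : ε * N = 9 * M + ε := by rw [hN]; field_simp
    nlinarith
  refine ⟨ε / (6 * N ^ 2), ε / (6 * N), by positivity, by positivity,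
    fun W mW i1 i4 b4 h0 hp => ?_⟩
  have mE : MeasurableSet {ω | ε / (6 * N) ≤ W ω} := measurableSet_le measurable_const mW
  have j1 : Integrable (fun ω => 2 * N * (ε / (6 * N)) +
      {ω | ε / (6 * N) ≤ W ω}.indicator (fun _ => 2 * N ^ 2) ω) PE :=
    (integrable_const _).add ((integrable_const _).indicator mE)
  have j2 : Integrable (fun ω => 3 * W ω ^ 4 / N ^ 2) PE := (i4.const_mul _).div_const _
  have j3 : Integrable (fun ω => N * W ω) PE := i1.const_mul _
  refine (variance_le_expectation_sq mW.aestronglyMeasurable).trans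
    ((integral_mono_of_nonneg (ae_of_all _ fun ω => sq_nonneg _) ((j1.add j2).sub j3)
      (ae_of_all _ fun ω => ?_)).trans ?_)
  · have := sq_le_up (w := W ω) (c := ε / (6 * N)) (by positivity) N1
    simpa only [Pi.sub_apply, Pi.add_apply, Pi.pow_apply, indicator, mem_ofPred_eq] using this
  · simp only [Pi.sub_apply, Pi.add_apply]
    have j4 : Integrable (fun ω => 2 * N * (ε / (6 * N)) +
        {ω | ε / (6 * N) ≤ W ω}.indicator (fun _ => 2 * N ^ 2) ω + 3 * W ω ^ 4 / N ^ 2) PE :=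
      j1.add j2
    rw [integral_sub j4 j3, integral_add j1 j2,
      integral_add (integrable_const _) ((integrable_const _).indicator mE),
      integral_indicator_const _ mE, integral_div, integral_const_mul 3, integral_const_mul N]
    simp only [integral_const, probReal_univ, smul_eq_mul, one_mul]
    have c1 : 3 * (∫ ω, W ω ^ 4 ∂PE) / N ^ 2 ≤ ε / 3 := by
      rw [div_le_iff₀ (by positivity)]; linarith
    have c2 : 2 * N * (ε / (6 * N)) = ε / 3 := by field_simp; ring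
    rw [lt_div_iff₀ (by positivity)] at hp
    nlinarith [mul_nonneg N0.le h0]

lemma var_of_up {B ε : ℝ} (hB : 0 ≤ B) (hε : 0 < ε) : ∃ p c : ℝ, 0 < p ∧ 0 < c ∧
    ∀ (x y : VV) (m S : ℝ), 0 < S → m ≤ hh (y - x) →
      Dom (fun ω z => z = TT ω x y - m) (B * S) (S / 3) →
      Dom (fun ω z => z = m - TT ω x y) (B * S) (S / 3) →
      PE.real {ω | m + c * S ≤ TT ω x y} < p → Var[fun ω => TT ω x y; PE] ≤ ε * S ^ 2 := by
  obtain ⟨p, c, p0, c0, h⟩ := var_up (M := 16 * B ^ 4 + 16) (by positivity) hε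
  refine ⟨p, c, p0, c0, fun x y m S s0 hm hU hD hup => ?_⟩
  obtain ⟨i1, b1⟩ := dom_pow_four (X := fun ω => TT ω x y - m) (by fun_prop) hU (by positivity)
    (by positivity)
  obtain ⟨i2, b2⟩ := dom_pow_four (X := fun ω => m - TT ω x y) (by fun_prop) hD (by positivity)
    (by positivity)
  have e : ∀ t : ℝ, ((t - m) / S) ^ 4 = (max (t - m) 0 ^ 4 + max (m - t) 0 ^ 4) / S ^ 4 :=
    fun t => by
      rw [div_pow]
      rcases le_total t m with h | h
      · rw [max_eq_right (by linarith), max_eq_left (by linarith)]; ring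
      · rw [max_eq_left (by linarith), max_eq_right (by linarith)]; ring
  have le2 : ∀ t a : ℝ, a ≤ (t - m) / S ↔ m + a * S ≤ t := fun t a => by
    rw [le_div_iff₀ s0, le_sub_iff_add_le']
  have key := h (fun ω => (TT ω x y - m) / S) (by fun_prop)
    (((integrable_TT x y).sub (integrable_const m)).div_const S)
    (by simp only [e]; exact (i1.add i2).div_const _)
    (by
      simp only [e]
      rw [integral_div, integral_add i1 i2, div_le_iff₀ (by positivity)]
      have : 0 ≤ S ^ 4 := by positivity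
      linarith)
    (by
      rw [integral_div, integral_sub (integrable_TT x y) (integrable_const m), integral_TT]
      simp only [integral_const, probReal_univ, smul_eq_mul, one_mul]
      exact div_nonneg (by linarith) s0.le)
    (by simpa only [le2] using hup)
  simp only [div_eq_mul_inv] at key
  rw [variance_mul_const, variance_sub_const (measurable_TT x y).aestronglyMeasurable,
    inv_pow, ← div_eq_mul_inv, div_le_iff₀ (by positivity)] at key
  exact key

theorem oneStep : ∃ p c K : ℝ, 0 < p ∧ 0 < c ∧ ∀ (μ : ℝ × ℝ → ℝ) (σ : ℝ → ℝ) (R : ℝ), IsTC μ →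
    Sc σ → (∀ r, 1 ≤ r → K ≤ σ r) →
    (∀ v, 1 ≤ n1 v → PE.real {ω | TT ω 0 v ≤ μ (iv v) - σ (n1 v)} < p ∨
      PE.real {ω | μ (iv v) + c * σ (n1 v) ≤ TT ω 0 v} < p) →
    1 ≤ R → Conc σ R → Conc σ (2 * R) := by
  obtain ⟨B, K0, hB, h0⟩ := ext (X := 3) (by norm_num)
  obtain ⟨B0, hB0, h1⟩ := meanB
  obtain ⟨ε, hε, h2⟩ := dom_of_var (B + B0)
  obtain ⟨p, K1, p0, h3⟩ := RF.var_of_low hB hε
  obtain ⟨p', c, p0', c0, h4⟩ := var_of_up hB hε
  refine ⟨min p p', c, max K0 K1, lt_min p0 p0', c0,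
    fun μ σ R tc sc big hV hR conc x y r r1 r2 r3 => ?_⟩
  have pos : ∀ r, 1 ≤ r → 0 < σ r := fun r hr => lt_of_lt_of_le (by norm_num) (sc.big r hr)
  rcases le_total (n1 (y - x)) R with hc | hc
  · have a1 : 1 ≤ min r R := le_min r2 hR
    obtain ⟨a2, a3⟩ := conc x y (min r R) (le_min r1 hc) a1 (min_le_right _ _)
    have a4 := sc.mono _ _ (by linarith) (min_le_left r R)
    exact ⟨a2.scale (pos _ a1) a4, a3.scale (pos _ a1) a4⟩
  have a1 : 1 ≤ n1 (y - x) := hR.trans hc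
  have s0 := pos _ a1
  obtain ⟨a4, a5⟩ := h0 μ σ R tc sc conc fun r hr => (le_max_left _ _).trans (big r hr)
  have a0 : n1 (y - x - 0) ≤ n1 (y - x) := by rw [sub_zero]
  have a2 : Var[fun ω => TT ω 0 (y - x); PE] ≤ ε * σ (n1 (y - x)) ^ 2 := by
    rcases hV _ a1 with hl | hu
    · exact h3 0 (y - x) _ _ s0 ((le_max_right _ _).trans (big _ a1))
        (a4 0 (y - x) _ a0 a1 (r1.trans r3)) (a5 0 (y - x) _ a0 a1 (r1.trans r3))
        (by rw [sub_zero]; exact hl.trans_le (min_le_left _ _))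
    · exact h4 0 (y - x) _ _ s0 (tc.le_hh _)
        (a4 0 (y - x) _ a0 a1 (r1.trans r3)) (a5 0 (y - x) _ a0 a1 (r1.trans r3))
        (by rw [sub_zero]; exact hu.trans_le (min_le_right _ _))
  have a3 : Var[fun ω => TT ω x y; PE] = Var[fun ω => TT ω 0 (y - x); PE] := by
    have := (measurePreserving_tau x).variance_fun_comp (measurable_TT 0 (y - x)).aemeasurable
    simpa [TT_tau] using this
  rw [← a3] at a2
  have a6 := h1 μ σ R tc sc conc (y - x) (n1 (y - x)) (tc.le _) (r1.trans r3)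
  have a7 := tc.le_hh (y - x)
  have a8 := sc.mono _ _ (by linarith) r1
  have b1 := h2 (fun ω => TT ω x y) (μ (iv (y - x)) + B * σ (n1 (y - x))) _ (measurable_TT x y)
    (memLp_TT x y) s0 a2 (by rw [integral_TT]; nlinarith)
    ((a4 x y _ le_rfl a1 (r1.trans r3)).mono (by positivity) fun ω z hz => ⟨_, rfl, by linarith⟩)
  have b2 := h2 (fun ω => -TT ω x y) (-μ (iv (y - x)) + B * σ (n1 (y - x))) _
    (measurable_TT x y).neg (memLp_TT x y).neg s0 (by rwa [variance_fun_neg])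
    (by rw [integral_neg, integral_TT]; nlinarith)
    ((a5 x y _ le_rfl a1 (r1.trans r3)).mono (by positivity) fun ω z hz => ⟨_, rfl, by linarith⟩)
  rw [integral_TT] at b1
  rw [integral_neg, integral_TT] at b2
  exact ⟨b1.scale s0 a8, b2.scale s0 a8⟩

/-- Both tails around the time constant are thick at the same point. -/
theorem two_sided : ∃ p : ℝ, 0 < p ∧ ∀ μ : ℝ × ℝ → ℝ, IsTC μ → ∀ a : ℝ, a < 1 / 5 → ∀ C : ℝ,
    ∃ v : VV, 1 ≤ n1 v ∧ p ≤ PE.real {ω | TT ω 0 v ≤ μ (iv v) - C * n1 v ^ a} ∧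
      p ≤ PE.real {ω | μ (iv v) + C * n1 v ^ a ≤ TT ω 0 v} := by
  obtain ⟨p, c, K, p0, c0, h⟩ := oneStep
  refine ⟨p, p0, fun μ hμ a ha C => ?_⟩
  by_contra hc
  push Not at hc
  obtain ⟨e, e1, e2, e3⟩ : ∃ e : ℝ, 7 / 36 ≤ e ∧ a ≤ e ∧ e < 1 / 5 :=
    ⟨max (7 / 36) a, le_max_left _ _, le_max_right _ _, max_lt (by norm_num) ha⟩
  obtain ⟨A, A1, A2, A3, A4⟩ : ∃ A : ℝ, 10 ^ 30 ≤ A ∧ K ≤ A ∧ |C| ≤ A ∧ |C| / c ≤ A :=
    ⟨max (max (10 ^ 30) K) (max |C| (|C| / c)), (le_max_left _ _).trans (le_max_left _ _),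
      (le_max_right _ _).trans (le_max_left _ _), (le_max_left _ _).trans (le_max_right _ _),
      (le_max_right _ _).trans (le_max_right _ _)⟩
  rw [div_le_iff₀ c0] at A4
  have hs : Sc fun r => A * r ^ e := sc_rpow A1 e1 (by linarith)
  have big : ∀ r : ℝ, 1 ≤ r → A ≤ A * r ^ e := fun r hr =>
    le_mul_of_one_le_right (by linarith) (one_le_rpow hr (by linarith))
  have all : ∀ n : ℕ, Conc (fun r => A * r ^ e) (2 ^ n) := by
    intro n
    induction n with
    | zero =>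
      intro x y r r1 r2 r3
      obtain rfl : r = 1 := le_antisymm (by simpa using r3) r2
      have a2 : 4800 * sig 1 ≤ A * (1 : ℝ) ^ e := by
        rw [one_rpow]; linarith [sig_le_self le_rfl]
      have a3 := sig_pos r2
      exact ⟨(dom_up x y r1 r2).scale (by linarith) a2,
        (dom_down x y r1 r2).scale (by linarith) a2⟩
    | succ n ih =>
      rw [pow_succ']
      refine h μ _ _ hμ hs (fun r hr => A2.trans (big r hr)) (fun v hv => ?_)
        (one_le_pow₀ (by norm_num)) ih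
      have b0 : 0 ≤ n1 v ^ e := rpow_nonneg (n1_nonneg v) _
      have b1 : C * n1 v ^ a ≤ |C| * n1 v ^ e := mul_le_mul (le_abs_self C)
        (rpow_le_rpow_of_exponent_le hv e2) (rpow_nonneg (n1_nonneg v) _) (abs_nonneg C)
      rcases lt_or_ge (PE.real {ω | TT ω 0 v ≤ μ (iv v) - C * n1 v ^ a}) p with h1 | h1
      · refine Or.inl (lt_of_le_of_lt (RF.low_mono _ ?_) h1)
        linarith [mul_le_mul_of_nonneg_right A3 b0]
      · have b2 : μ (iv v) + C * n1 v ^ a ≤ μ (iv v) + c * (A * n1 v ^ e) := by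
          nlinarith [mul_le_mul_of_nonneg_right A4 b0]
        exact Or.inr (lt_of_le_of_lt (measureReal_mono fun ω hω => b2.trans hω) (hc v hv h1))
  obtain ⟨C', hC', hT⟩ := tail_pow hμ e1 (by linarith) (D := 1153 * A ^ 2) fun v hv => by
    obtain ⟨n, hn⟩ := pow_unbounded_of_one_lt (n1 v) (by norm_num : (1 : ℝ) < 2)
    refine (var_conc (all n) le_rfl hv hn.le (by linarith [big _ hv])).trans (le_of_eq ?_)
    rw [mul_pow, mul_comm 2 e, rpow_mul (by linarith), rpow_two, mul_assoc]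
  obtain ⟨K', hK', hthin⟩ := thin hμ
  exact Scale.no_tail hμ (by linarith) e3 hC' hK' hthin hT

end Pool.Agent.Lib.MP_de94ef_pr.Q.L
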